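import Pool.Agent.MP_d0fd9b_nt.S64.Defs

attribute [-instance] NonUnitalAlgHomClass.toNonUnitalRingHomClass
  AlgHom.instNonUnitalAlgHomClassOfAlgHomClass IsAffineMonoid.toIsMulTorsionFree Unique.instInhabited
  Prod.instAddCommMonoid IdemSemiring.toCanonicallyOrderedAdd RKHS.instFunLike
  MonTypeEquivalenceMon.monMonoid AddMonoidHomClass.toZeroHomClass OneMemClass.one
  AddQuantale.instAddLeftMono littleWedderburn instNonemptyOfMonad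
  Group.IsPerfect.subsingleton_of_isMulCommutative Fintype.decidableExistsFintype
  RCLike.charZero_rclike Field.isDomain infSet_to_nonempty instInhabitedOfMonad
  covariant_swap_mul_of_covariant_mul NumberField.to_charZero List.instDecidableMemOfLawfulBEq
  instIsDomain Torsor.nonempty AddTorsor.nonempty DivisionRing.isDomain IsOrderedMonoid.toMulLeftMono
  instCoeHTCOfCoeHeadOfCoeOTC NonUnitalNonAssocSemiring.toDistrib Nontrivial.to_nonempty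
  instCoeTCOfCoe Quantale.instMulLeftMono IrreducibleSpace.toNonempty AddQuantale.instAddRightMono
  Zero.instNonempty ContinuousSemilinearMapClass.toSemilinearMapClass ConnectedSpace.toNonempty
  supSet_to_nonempty CategoryTheory.IsConnected.is_nonempty bot_nonempty top_nonempty
  One.instNonempty SemilatticeInf.toPartialOrder instCoeTOfCoeDep
  NonUnitalAlgSemiHomClass.toDistribMulActionSemiHomClass IdemSemiring.toMulLeftMono
  MonoidHomClass.toOneHomClass instCoeHTCTOfCoeTailOfCoeHTC Finset.decidableDforallFinset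
  TestFunctionClass.toDFunLike MonoidWithZero.toMonoid
  CommMonTypeEquivalenceCommMon.commMonCommMonoid NormedRing.toRing instCharZeroOfIsSemireal
  CategoryTheory.Limits.Concrete.instUniqueToTypeTerminal
  Vector.instDecidableForallForallMemOfDecidablePred Multiset.decidableDforallMultiset
  CanonicallyOrderedCommMonoid.toUniqueUnits ContDiffMapSupportedInClass.toDFunLike
  instIsEmptyForallOfNonempty Quantale.instMulRightMono CoalgHomClass.toSemilinearMapClass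
  NormedCommRing.toCommRing EquivLike.toFunLike Option.decidableForallMem
  Array.instDecidableForallForallMemOfDecidablePred EuclideanDomain.toCommRing
  IsDedekindDomain.isPrincipalIdealRing Pi.instInhabited CanonicallyOrderedAdd.toMulLeftMono

/-! The tuples attached to pairs of classes of order three. -/

set_option autoImplicit false

section
namespace Pool.Agent.MP_d0fd9b_nt.S64

open Finset S72 H72

lemma g1_per {Φ : ℕ → ℝ} {L : ℕ} (hL : 0 < L) (hp : Function.Periodic Φ L) (h0 : ∀ k, 0 ≤ Φ k)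
    (K : ℕ) : |∑ k ∈ range K, Φ k - K * ((∑ k ∈ range L, Φ k) / L)| ≤ ∑ k ∈ range L, Φ k := by
  have hL' : (0 : ℝ) < L := by exact_mod_cast hL
  induction K using Nat.strong_induction_on with
  | _ K ih =>
    rcases Nat.lt_or_ge K L with hK | hK
    · have h1 : 0 ≤ ∑ k ∈ range K, Φ k := sum_nonneg fun k _ => h0 k
      have h2 : ∑ k ∈ range K, Φ k ≤ ∑ k ∈ range L, Φ k :=
        sum_le_sum_of_subset_of_nonneg (range_mono hK.le) fun k _ _ => h0 k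
      have h3 : (K : ℝ) ≤ L := by exact_mod_cast hK.le
      have h4 : 0 ≤ (∑ k ∈ range L, Φ k) / L := div_nonneg (h1.trans h2) hL'.le
      have h5 := mul_le_mul_of_nonneg_right h3 h4
      rw [mul_div_cancel₀ _ hL'.ne'] at h5
      have h6 : 0 ≤ (K : ℝ) * ((∑ k ∈ range L, Φ k) / L) := by positivity
      rw [abs_le]
      constructor <;> linarith only [h1, h5, h2, h6]
    · obtain ⟨K', rfl⟩ := Nat.exists_eq_add_of_le hK
      have h2 := ih K' (by omega)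
      rw [sum_range_add]
      simp_rw [add_comm L, hp _]
      convert h2 using 2
      push_cast
      field_simp
      ring

lemma g1_sieve {P : Finset ℕ} (hP : ∀ l ∈ P, l.Prime ∧ 5 ≤ l) {φ : ℕ → ℕ → ℝ}
    (hφ : ∀ l, Function.Periodic (φ l) l) (h0 : ∀ l k, 0 ≤ φ l k)
    (hb : ∀ l ∈ P, ∑ k ∈ range l, φ l k ≤ 3) (K : ℕ) :
    K * (2 / 5 : ℝ) ^ #P - 4 ^ #P ≤ ∑ k ∈ range K, ∏ l ∈ P, (1 + -φ l k) := by
  have h1 : (2 / 5 : ℝ) ^ #P ≤ ∏ l ∈ P, (1 + -((∑ k ∈ range l, φ l k) / l)) := by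
    rw [← prod_const]
    refine prod_le_prod (fun _ _ => by norm_num) fun l hl => ?_
    have h5 : (5 : ℝ) ≤ l := by exact_mod_cast (hP l hl).2
    have : (∑ k ∈ range l, φ l k) / l ≤ 3 / 5 := by
      rw [div_le_iff₀ (by linarith)]
      linarith only [hb l hl, h5]
    linarith
  have h2 : ∀ S ∈ P.powerset, K * ∏ l ∈ S, -((∑ k ∈ range l, φ l k) / l) - ∏ l ∈ S, (3 : ℝ) ≤
      ∑ k ∈ range K, ∏ l ∈ S, -φ l k := fun S hS => by
    have hS' := mem_powerset.1 hS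
    have h3 := g1_per (prod_pos fun l hl => (hP l (hS' hl)).1.pos) (periodic_prod hφ S)
      (fun k => prod_nonneg fun l _ => h0 l k) K
    rw [sum_prod_primes hφ S fun l hl => (hP l (hS' hl)).1, Nat.cast_prod, ← prod_div_distrib] at h3
    have h4 : ∏ l ∈ S, ∑ k ∈ range l, φ l k ≤ ∏ l ∈ S, (3 : ℝ) :=
      prod_le_prod (fun l _ => sum_nonneg fun k _ => h0 l k) fun l hl => hb l (hS' hl)
    have h5 := abs_le.1 (h3.trans h4)
    simp_rw [prod_neg, ← mul_sum]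
    rcases neg_one_pow_eq_or ℝ #S with e | e <;> rw [e] <;> linarith only [h5.1, h5.2]
  have h3 := sum_le_sum h2
  rw [sum_sub_distrib, ← mul_sum, ← prod_one_add, ← prod_one_add, sum_comm, prod_const] at h3
  simp_rw [← prod_one_add] at h3
  have h4 := mul_le_mul_of_nonneg_left h1 (Nat.cast_nonneg (α := ℝ) K)
  norm_num only [tsub_le_iff_right, ge_iff_le] at h3 h4 ⊢
  linarith only [h3, h4]

lemma g1_roots {l : ℕ} (hl : l.Prime) (h5 : 5 ≤ l) {α : Fin 4 → ℤ} (hα : ∃ i, ¬ (l : ℤ) ∣ α i)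
    (x : ℤ) : #((range l).filter fun k : ℕ => (l : ℤ) ∣ α 0 + 3 * α 1 * (x + 108 * k) +
      3 * α 2 * (x + 108 * k) ^ 2 + α 3 * (x + 108 * k) ^ 3) ≤ 3 := by
  have := Fact.mk hl
  have h6 : ∀ n : ℕ, n ∣ 108 → (n : ZMod l) ≠ 0 := fun n hn h => by
    have h1 := ((ZMod.natCast_eq_zero_iff _ _).1 h).trans hn
    rw [show 108 = 2 ^ 2 * 3 ^ 3 by norm_num, hl.dvd_mul] at h1
    rcases h1 with h1 | h1 <;> have := Nat.le_of_dvd (by norm_num) (hl.dvd_of_dvd_pow h1) <;> omega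
  have h3 : (3 : ZMod l) ≠ 0 := by exact_mod_cast h6 3 (by norm_num)
  have h108 : (108 : ZMod l) ≠ 0 := by exact_mod_cast h6 108 dvd_rfl
  let p : Cubic (ZMod l) := ⟨α 3, 3 * α 2, 3 * α 1, α 0⟩
  have hp : p.toPoly ≠ 0 := fun h => by
    obtain ⟨i, hi⟩ := hα
    have h' : p = 0 := (Cubic.toPoly_eq_zero_iff p).1 h
    have e0 : (α 0 : ZMod l) = 0 := congrArg Cubic.d h'
    have e1 : 3 * (α 1 : ZMod l) = 0 := congrArg Cubic.c h'
    have e2 : 3 * (α 2 : ZMod l) = 0 := congrArg Cubic.b h'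
    have e3 : (α 3 : ZMod l) = 0 := congrArg Cubic.a h'
    refine hi ((ZMod.intCast_zmod_eq_zero_iff_dvd _ _).1 ?_)
    fin_cases i
    exacts [e0, (mul_eq_zero.1 e1).resolve_left h3, (mul_eq_zero.1 e2).resolve_left h3, e3]
  refine le_trans (card_le_card_of_injOn (t := p.roots.toFinset)
    (fun k => (x : ZMod l) + 108 * k) (fun k hk => ?_) fun k hk k' hk' h => ?_) Cubic.card_roots_le
  · have h1 := (ZMod.intCast_zmod_eq_zero_iff_dvd _ _).2 (mem_filter.1 hk).2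
    rw [mem_coe, Multiset.mem_toFinset, Cubic.mem_roots_iff hp]
    push_cast at h1
    simp only [p]
    linear_combination h1
  · have h1 : (k : ZMod l) = k' := mul_left_cancel₀ h108 (add_left_cancel h)
    exact Nat.ModEq.eq_of_lt_of_lt ((ZMod.natCast_eq_natCast_iff _ _ _).1 h1)
      (mem_range.1 (mem_filter.1 hk).1) (mem_range.1 (mem_filter.1 hk').1)

lemma g1_dvd {m j r : ℤ} (α : Fin 4 → ℤ) (h : m ∣ j - r)
    (h1 : m ∣ α 0 + 3 * α 1 * j + 3 * α 2 * j ^ 2 + α 3 * j ^ 3) :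
    m ∣ α 0 + 3 * α 1 * r + 3 * α 2 * r ^ 2 + α 3 * r ^ 3 := by
  obtain ⟨c, hc⟩ := dvd_sub h1
    (h.mul_right (3 * α 1 + 3 * α 2 * (j + r) + α 3 * (j ^ 2 + j * r + r ^ 2)))
  exact ⟨c, by linear_combination hc⟩

theorem avoid (G : ℕ) (hG : G ≠ 0) (α : Fin 4 → ℤ) (hα : ∀ l : ℕ, l.Prime → ∃ i, ¬ (l : ℤ) ∣ α i)
    (x : ℤ) : ∃ j : ℤ, x ≤ j ∧ j < x + 216 * 10 ^ #(G.primeFactors.filter (5 ≤ ·)) ∧
      ¬ 4 ∣ α 0 + 3 * α 1 * j + 3 * α 2 * j ^ 2 + α 3 * j ^ 3 ∧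
      ¬ 27 ∣ α 0 + 3 * α 1 * j + 3 * α 2 * j ^ 2 + α 3 * j ^ 3 ∧
      ∀ l : ℕ, l.Prime → 5 ≤ l → l ∣ G →
        ¬ (l : ℤ) ∣ α 0 + 3 * α 1 * j + 3 * α 2 * j ^ 2 + α 3 * j ^ 3 := by
  have hα' := fun l hl => by simpa only [Fin.exists_fin_succ, IsEmpty.exists_iff, or_false,
    Fin.succ_zero_eq_one, Fin.succ_one_eq_two, Fin.reduceSucc, Fin.isValue] using hα l hl
  obtain ⟨r, hr⟩ : ∃ r : ℤ, ¬ 4 ∣ α 0 + 3 * α 1 * r + 3 * α 2 * r ^ 2 + α 3 * r ^ 3 := by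
    by_contra! h
    have h0 := h 0
    have h1 := h 1
    have h2 := h 2
    have h3 := h (-1)
    have := hα' 2 Nat.prime_two
    omega
  obtain ⟨s, hs⟩ : ∃ r : ℤ, ¬ 27 ∣ α 0 + 3 * α 1 * r + 3 * α 2 * r ^ 2 + α 3 * r ^ 3 := by
    by_contra! h
    have h0 := h 0
    have h1 := h 1
    have h2 := h 3
    have h3 := h (-1)
    have := hα' 3 Nat.prime_three
    omega
  obtain ⟨z, z1, z2, z3, z4⟩ := t9_crt (u := 4) (v := 27) (by norm_num) (by norm_num) r s x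
  set P := G.primeFactors.filter (5 ≤ ·) with hP
  have hP' : ∀ l ∈ P, l.Prime ∧ 5 ≤ l := fun l hl =>
    ⟨Nat.prime_of_mem_primeFactors (mem_filter.1 hl).1, (mem_filter.1 hl).2⟩
  let φ : ℕ → ℕ → ℝ := fun l k => if (l : ℤ) ∣ α 0 + 3 * α 1 * (z + 108 * k) +
    3 * α 2 * (z + 108 * k) ^ 2 + α 3 * (z + 108 * k) ^ 3 then 1 else 0
  have h := g1_sieve hP' (φ := φ) (fun l k => if_congr ⟨g1_dvd α ⟨108, by push_cast; ring⟩,
      g1_dvd α ⟨-108, by push_cast; ring⟩⟩ rfl rfl) (fun l k => by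
      simp only [φ]; split_ifs <;> norm_num) (fun l hl => by
      simp only [φ, sum_boole]
      exact_mod_cast g1_roots (hP' l hl).1 (hP' l hl).2 (hα l (hP' l hl).1) z) (10 ^ #P + 1)
  have h1 : (0 : ℝ) < (10 ^ #P + 1 : ℕ) * (2 / 5 : ℝ) ^ #P - 4 ^ #P := by
    push_cast
    rw [add_mul, ← mul_pow]
    norm_num
  obtain ⟨k, hk, h2⟩ := exists_ne_zero_of_sum_ne_zero (h1.trans_le h).ne'
  have h3 : (k : ℤ) ≤ 10 ^ #P := by exact_mod_cast Nat.lt_succ_iff.1 (mem_range.1 hk)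
  have h4 : (1 : ℤ) ≤ 10 ^ #P := one_le_pow₀ (by norm_num)
  refine ⟨z + 108 * k, by omega, by omega, fun h5 => hr (g1_dvd α (by omega) h5),
    fun h5 => hs (g1_dvd α (by omega) h5), fun l hl h5 h6 h7 => h2 (prod_eq_zero
      (mem_filter.2 ⟨Nat.mem_primeFactors.2 ⟨hl, h6, hG⟩, h5⟩) ?_)⟩
  simp only [φ, if_pos h7, add_neg_cancel]

end Pool.Agent.MP_d0fd9b_nt.S64

end

section
namespace Pool.Agent.MP_d0fd9b_nt.S64

open Finset S72 H72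

theorem g2_det (u v : ℂ × ℂ) : ‖det2 u v‖ ≤ 2 * (‖u‖ * ‖v‖) := by
  unfold det2
  refine (norm_sub_le _ _).trans ?_
  rw [norm_mul, norm_mul, two_mul]
  exact add_le_add (mul_le_mul (norm_fst_le u) (norm_snd_le v) (norm_nonneg _) (norm_nonneg _))
    (mul_le_mul (norm_snd_le u) (norm_fst_le v) (norm_nonneg _) (norm_nonneg _))

theorem g2_lag (g0 g1 g2 g3 α β : ℂ) {a b c d : ℂ} (ab : a - b ≠ 0) (ac : a - c ≠ 0) (ad : a - d ≠ 0)
    (bc : b - c ≠ 0) (bd : b - d ≠ 0) (cd : c - d ≠ 0) :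
    g0 * α ^ 3 + g1 * α ^ 2 * β + g2 * α * β ^ 2 + g3 * β ^ 3 =
      (g0 * a ^ 3 + g1 * a ^ 2 + g2 * a + g3) *
          ((α - b * β) / (a - b) * ((α - c * β) / (a - c)) * ((α - d * β) / (a - d))) -
        (g0 * b ^ 3 + g1 * b ^ 2 + g2 * b + g3) *
          ((α - a * β) / (a - b) * ((α - c * β) / (b - c)) * ((α - d * β) / (b - d))) +
        (g0 * c ^ 3 + g1 * c ^ 2 + g2 * c + g3) *
          ((α - a * β) / (a - c) * ((α - b * β) / (b - c)) * ((α - d * β) / (c - d))) -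
        (g0 * d ^ 3 + g1 * d ^ 2 + g2 * d + g3) *
          ((α - a * β) / (a - d) * ((α - b * β) / (b - d)) * ((α - c * β) / (c - d))) := by
  field_simp
  ring

theorem g2_term {f a b c p q r : ℂ} {ε Y σ : ℝ} (hσ : 0 < σ) (hf : ‖f‖ ≤ ε) (ha : ‖a‖ ≤ Y)
    (hb : ‖b‖ ≤ Y) (hc : ‖c‖ ≤ Y) (hp : σ ≤ ‖p‖) (hq : σ ≤ ‖q‖) (hr : σ ≤ ‖r‖) :
    ‖f * (a / p * (b / q) * (c / r))‖ ≤ ε * (Y / σ) ^ 3 := by
  have hY := (norm_nonneg _).trans ha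
  have hε := (norm_nonneg _).trans hf
  simp only [norm_mul, norm_div]
  rw [pow_three']
  gcongr

theorem g2_interp (x y w w' v : ℂ × ℂ) (hv : ‖v‖ ≤ 1) (t : Fin 4 → ℂ) {σ Z ε : ℝ} (hσ : 0 < σ)
    (ht : ∀ i k, i ≠ k → σ ≤ ‖t i - t k‖) (hZ : ∀ i, ‖w' + t i • w‖ ≤ Z)
    (hε : ∀ i, ‖FF x y (w' + t i • w)‖ ≤ ε) :
    ‖FF x y v‖ * (σ * ‖det2 w w'‖) ^ 3 ≤ 32 * Z ^ 3 * ε := by
  obtain ⟨g0, g1, g2, g3, hg⟩ : ∃ g0 g1 g2 g3 : ℂ, ∀ α β : ℂ, FF x y (β • w' + α • w) =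
      g0 * α ^ 3 + g1 * α ^ 2 * β + g2 * α * β ^ 2 + g3 * β ^ 3 := by
    refine ⟨FF x y w, 3 * (x.1 * y.1 * w.1 - x.2 * y.2 * w.2) ^ 2 *
      (x.1 * y.1 * w'.1 - x.2 * y.2 * w'.2) - 3 * ((x.1 ^ 3 - x.2 ^ 3) * (y.1 ^ 3 - y.2 ^ 3)) *
        (w.1 ^ 2 * w'.1 - w.2 ^ 2 * w'.2), 3 * (x.1 * y.1 * w.1 - x.2 * y.2 * w.2) *
      (x.1 * y.1 * w'.1 - x.2 * y.2 * w'.2) ^ 2 - 3 * ((x.1 ^ 3 - x.2 ^ 3) * (y.1 ^ 3 - y.2 ^ 3)) *
        (w.1 * w'.1 ^ 2 - w.2 * w'.2 ^ 2), FF x y w', fun α β => ?_⟩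
    simp only [FF, Prod.fst_add, Prod.snd_add, Prod.smul_fst, Prod.smul_snd, smul_eq_mul]
    generalize x.1 * y.1 = A
    generalize x.2 * y.2 = B
    generalize (x.1 ^ 3 - x.2 ^ 3) * (y.1 ^ 3 - y.2 ^ 3) = C
    ring
  have hne : ∀ i k, i ≠ k → t i - t k ≠ 0 := fun i k h =>
    norm_pos_iff.mp (hσ.trans_le (ht i k h))
  have hF : ∀ i, ‖g0 * t i ^ 3 + g1 * t i ^ 2 + g2 * t i + g3‖ ≤ ε := fun i => by
    have h1 := hg (t i) 1
    rw [one_smul] at h1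
    have h2 := hε i
    rw [h1] at h2
    simpa using h2
  have hd : ∀ i, ‖det2 v w' - t i * det2 w v‖ ≤ 2 * Z := fun i => by
    have h1 : det2 v w' - t i * det2 w v = det2 v (w' + t i • w) := by
      simp only [det2, Prod.fst_add, Prod.snd_add, Prod.smul_fst, Prod.smul_snd, smul_eq_mul]
      ring
    rw [h1]
    refine (g2_det _ _).trans (mul_le_mul_of_nonneg_left ?_ zero_le_two)
    exact (mul_le_of_le_one_left (norm_nonneg _) hv).trans (hZ i)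
  have e1 : FF x y v * det2 w w' ^ 3 = FF x y (det2 w v • w' + det2 v w' • w) := by
    simp only [FF, det2, Prod.fst_add, Prod.snd_add, Prod.smul_fst, Prod.smul_snd, smul_eq_mul]
    generalize x.1 * y.1 = A
    generalize x.2 * y.2 = B
    generalize (x.1 ^ 3 - x.2 ^ 3) * (y.1 ^ 3 - y.2 ^ 3) = C
    ring
  have e2 : ‖FF x y v * det2 w w' ^ 3‖ ≤ 4 * (ε * (2 * Z / σ) ^ 3) := by
    rw [e1, hg, g2_lag g0 g1 g2 g3 _ _ (hne 0 1 (by decide)) (hne 0 2 (by decide))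
      (hne 0 3 (by decide)) (hne 1 2 (by decide)) (hne 1 3 (by decide)) (hne 2 3 (by decide))]
    have a0 := g2_term hσ (hF 0) (hd 1) (hd 2) (hd 3) (ht 0 1 (by decide)) (ht 0 2 (by decide))
      (ht 0 3 (by decide))
    have a1 := g2_term hσ (hF 1) (hd 0) (hd 2) (hd 3) (ht 0 1 (by decide)) (ht 1 2 (by decide))
      (ht 1 3 (by decide))
    have a2 := g2_term hσ (hF 2) (hd 0) (hd 1) (hd 3) (ht 0 2 (by decide)) (ht 1 2 (by decide))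
      (ht 2 3 (by decide))
    have a3 := g2_term hσ (hF 3) (hd 0) (hd 1) (hd 2) (ht 0 3 (by decide)) (ht 1 3 (by decide))
      (ht 2 3 (by decide))
    refine (norm_sub_le_of_le (norm_add_le_of_le (norm_sub_le_of_le a0 a1) a2) a3).trans
      (le_of_eq (by ring))
  rw [norm_mul, norm_pow] at e2
  calc ‖FF x y v‖ * (σ * ‖det2 w w'‖) ^ 3 = ‖FF x y v‖ * ‖det2 w w'‖ ^ 3 * σ ^ 3 := by ring
    _ ≤ 4 * (ε * (2 * Z / σ) ^ 3) * σ ^ 3 := by gcongr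
    _ = 32 * Z ^ 3 * ε := by field_simp; ring

theorem g2_r1 {a b η : ℝ} (_ha : 0 ≤ a) (hb : 0 ≤ b) (h1 : 3 * (a ^ 2 * b) ≤ 2 * η)
    (h2 : a ^ 3 ≤ 2 * η + b ^ 3) : 3 * a ^ 3 ≤ 16 * η := by
  have h0 : 0 ≤ a ^ 2 * b := by positivity
  rcases le_total (a / 2) b with h | h
  · have := mul_le_mul_of_nonneg_left h (sq_nonneg a)
    linarith only [h1, h0, this]
  · have := pow_le_pow_left₀ hb h 3
    linarith only [h1, h2, h0, this]

theorem g2_r2 {a b u v η : ℝ} (ha : 0 ≤ a) (hb : 0 ≤ b) (hu : 0 < u) (hv : 0 ≤ v) (au : a ≤ u)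
    (bu : b ≤ u) (e : u * v = a * b) (h1 : 3 * (a ^ 2 * b) ≤ 2 * η) (h2 : u ^ 3 ≤ η + v ^ 3 + a ^ 3)
    (h3 : u ^ 3 ≤ η + v ^ 3 + b ^ 3) : 3 * u ^ 3 ≤ 16 * η := by
  have h0 : 0 ≤ a ^ 2 * b := by positivity
  rcases le_total a (u / 2) with h | h
  · have h4 : v ≤ u / 2 := le_of_mul_le_mul_left (by
      rw [e, mul_comm u]; exact mul_le_mul h bu hb (by positivity)) hu
    have := pow_le_pow_left₀ ha h 3
    have := pow_le_pow_left₀ hv h4 3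
    nlinarith
  rcases le_total b (u / 2) with h' | h'
  · have h4 : v ≤ u / 2 := le_of_mul_le_mul_left (by
      rw [e]; exact mul_le_mul au h' hb hu.le) hu
    have := pow_le_pow_left₀ hb h' 3
    have := pow_le_pow_left₀ hv h4 3
    nlinarith
  · have : (u / 2) ^ 2 * (u / 2) ≤ a ^ 2 * b := by gcongr
    linarith only [h1, this]

theorem g2_tri {p q r s : ℂ} {η : ℝ} (hs : ‖s‖ ≤ η) (e : p ^ 3 = s - q ^ 3 + r ^ 3) :
    ‖p‖ ^ 3 ≤ η + ‖q‖ ^ 3 + ‖r‖ ^ 3 := by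
  rw [← norm_pow, ← norm_pow, ← norm_pow, e]
  exact norm_add_le_of_le (norm_sub_le_of_le hs le_rfl) le_rfl

theorem g2_coef {x y : ℂ × ℂ} (hx : x.1 * x.2 ≠ 0) (hy : y.1 * y.2 ≠ 0) {η : ℝ}
    (h : ∀ v : ℂ × ℂ, ‖v‖ ≤ 1 → ‖FF x y v‖ ≤ η) : 3 * (‖x‖ * ‖y‖) ^ 3 ≤ 16 * η := by
  have f1 := h (1, 0) (by simp)
  have f2 := h (0, 1) (by simp only [Prod.norm_mk, norm_zero, norm_one, zero_le_one, sup_of_le_right, Std.le_refl])
  have f3 := h (1, 1) (by simp)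
  have f4 := h (1, -1) (by simp)
  have f2' : ‖-FF x y (0, 1)‖ ≤ η := by rwa [norm_neg]
  have n2 : ∀ s : ℂ, ‖s‖ ≤ η → ‖2 * s‖ ≤ 2 * η := fun s hs => by
    rw [norm_mul, Complex.norm_ofNat]; linarith
  have c1 : 3 * (‖x.1 * y.1‖ ^ 2 * ‖x.2 * y.2‖) ≤ 2 * η := by
    have e : 6 * ((x.1 * y.1) ^ 2 * (x.2 * y.2)) =
        FF x y (1, -1) + 2 * FF x y (0, 1) - FF x y (1, 1) := by simp only [FF]; ring
    have := norm_sub_le_of_le (norm_add_le_of_le f4 (n2 _ f2)) f3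
    rw [← e, norm_mul, norm_mul, norm_pow, Complex.norm_ofNat] at this
    linarith only [this]
  have c2 : 3 * (‖x.2 * y.2‖ ^ 2 * ‖x.1 * y.1‖) ≤ 2 * η := by
    have e : 6 * ((x.2 * y.2) ^ 2 * (x.1 * y.1)) =
        FF x y (1, -1) - 2 * FF x y (1, 0) + FF x y (1, 1) := by simp only [FF]; ring
    have := norm_add_le_of_le (norm_sub_le_of_le f4 (n2 _ f1)) f3
    rw [← e, norm_mul, norm_mul, norm_pow, Complex.norm_ofNat] at this
    linarith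
  have c3 : ‖x.1 * y.1‖ ^ 3 ≤ 2 * η + ‖x.2 * y.2‖ ^ 3 := by
    have := g2_tri (p := x.1 * y.1) (q := 0) (r := x.2 * y.2) (norm_add_le_of_le f1 f2)
      (by simp only [FF]; ring)
    rw [norm_zero] at this
    linarith
  have c4 : ‖x.2 * y.2‖ ^ 3 ≤ 2 * η + ‖x.1 * y.1‖ ^ 3 := by
    have := g2_tri (p := x.2 * y.2) (q := 0) (r := x.1 * y.1) (norm_sub_le_of_le f2' f1)
      (by simp only [FF]; ring)
    rw [norm_zero] at this
    linarith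
  have u1 := g2_tri (p := x.1 * y.2) (q := x.2 * y.1) (r := x.1 * y.1) f2' (by simp only [FF]; ring)
  have u2 := g2_tri (p := x.1 * y.2) (q := x.2 * y.1) (r := x.2 * y.2) f1 (by simp only [FF]; ring)
  have v1 := g2_tri (p := x.2 * y.1) (q := x.1 * y.2) (r := x.1 * y.1) f2' (by simp only [FF]; ring)
  have v2 := g2_tri (p := x.2 * y.1) (q := x.1 * y.2) (r := x.2 * y.2) f1 (by simp only [FF]; ring)
  have x1 := norm_pos_iff.mpr (left_ne_zero_of_mul hx)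
  have x2 := norm_pos_iff.mpr (right_ne_zero_of_mul hx)
  have y1 := norm_pos_iff.mpr (left_ne_zero_of_mul hy)
  have y2 := norm_pos_iff.mpr (right_ne_zero_of_mul hy)
  simp only [norm_mul] at c1 c2 c3 c4 u1 u2 v1 v2
  rw [Prod.norm_def x, Prod.norm_def y]
  rcases le_total ‖x.1‖ ‖x.2‖ with hx' | hx' <;> rcases le_total ‖y.1‖ ‖y.2‖ with hy' | hy'
  · rw [max_eq_right hx', max_eq_right hy']
    exact g2_r1 (by positivity) (by positivity) c2 c4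
  · rw [max_eq_right hx', max_eq_left hy']
    exact g2_r2 (by positivity) (by positivity) (by positivity) (by positivity) (by gcongr)
      (by gcongr) (by ring) c1 v1 v2
  · rw [max_eq_left hx', max_eq_right hy']
    exact g2_r2 (by positivity) (by positivity) (by positivity) (by positivity) (by gcongr)
      (by gcongr) (by ring) c1 u1 u2
  · rw [max_eq_left hx', max_eq_left hy']
    exact g2_r1 (by positivity) (by positivity) c1 c3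

theorem full {x y w w' : ℂ × ℂ} (hx : x.1 * x.2 ≠ 0) (hy : y.1 * y.2 ≠ 0) (hw : det2 w w' ≠ 0)
    (j : Fin 5 → ℤ) {σ Z : ℝ} (hσ : 0 < σ) (hj : ∀ i k, i ≠ k → σ ≤ |(j i : ℝ) - j k|)
    (hZ : ∀ i, ‖w' + j i • w‖ ≤ Z) : ∃ i,
      x.1 * y.1 * (w' + j i • w).1 - x.2 * y.2 * (w' + j i • w).2 ≠ 0 ∧
      (‖x‖ * ‖y‖ * (σ * ‖det2 w w'‖)) ^ 3 ≤ 200 * Z ^ 3 * ‖FF x y (w' + j i • w)‖ := by
  have hz : ∀ i, w' + j i • w = w' + (j i : ℂ) • w := fun i => by rw [Int.cast_smul_eq_zsmul]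
  have hj' : ∀ i k, i ≠ k → σ ≤ ‖(j i : ℂ) - j k‖ := fun i k h => by
    have e : (j i : ℂ) - j k = (((j i : ℝ) - j k : ℝ) : ℂ) := by push_cast; rfl
    rw [e, Complex.norm_real]
    exact hj i k h
  simp only [hz] at hZ ⊢
  obtain ⟨i0, hi0⟩ : ∃ i0 : Fin 5, ∀ k, k ≠ i0 →
      x.1 * y.1 * (w' + (j k : ℂ) • w).1 - x.2 * y.2 * (w' + (j k : ℂ) • w).2 ≠ 0 := by
    by_contra hc
    push Not at hc
    obtain ⟨i, -, hi⟩ := hc 0
    obtain ⟨k, hk, hk'⟩ := hc i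
    have h1 := norm_pos_iff.mp (hσ.trans_le (hj' k i hk))
    have h2 := mul_ne_zero (left_ne_zero_of_mul hx) (left_ne_zero_of_mul hy)
    refine mul_ne_zero h1 (mul_ne_zero h2 hw) ?_
    simp only [det2, Prod.fst_add, Prod.snd_add, Prod.smul_fst, Prod.smul_snd, smul_eq_mul] at hi hk' ⊢
    linear_combination (w'.2 + j i * w.2) * hk' - (w'.2 + j k * w.2) * hi
  obtain ⟨k, hk⟩ := Finite.exists_max fun k : Fin 4 => ‖FF x y (w' + (j (i0.succAbove k) : ℂ) • w)‖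
  refine ⟨i0.succAbove k, hi0 _ (Fin.succAbove_ne _ _), ?_⟩
  have hs : 0 < (σ * ‖det2 w w'‖) ^ 3 := pow_pos (mul_pos hσ (norm_pos_iff.mpr hw)) 3
  have h1 := g2_coef hx hy fun v hv => (le_div_iff₀ hs).mpr
    (g2_interp x y w w' v hv (fun k => (j (i0.succAbove k) : ℂ)) hσ
      (fun a b h => hj' _ _ (Fin.succAbove_right_injective.ne h)) (fun a => hZ _) hk)
  have hZ0 := (norm_nonneg _).trans (hZ 0)
  rw [← mul_div_assoc, le_div_iff₀ hs] at h1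
  have h2 : 0 ≤ Z ^ 3 * ‖FF x y (w' + (j (i0.succAbove k) : ℂ) • w)‖ := by positivity
  rw [mul_pow]
  linarith

end Pool.Agent.MP_d0fd9b_nt.S64

end

section
namespace Pool.Agent.MP_d0fd9b_nt.S64

open Finset S72 H72

section
variable {a b : ℤ} {δ : ℂ} {hδ : δ * δ = b ^ 2 + 4 * a} [IsDedekindDomain (QuadraticAlgebra ℤ a b)]
  {I I' : Ideal (QuadraticAlgebra ℤ a b)} {ξ ξ' : ℂ × ℂ}

open QuadraticAlgebra Ideal Complex in
lemma g3_basis (δ0 : δ ≠ 0) (h : Dt hδ I ξ) : ∃ w w', Mem hδ ξ w ∧ Mem hδ ξ w' ∧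
    ‖w.1 * w'.2 - w.2 * w'.1‖ = ‖δ‖ ∧ ‖w‖ * ‖w'‖ ≤ 3 / 2 * ‖δ‖ := by
  classical
  let Q : QuadraticAlgebra ℤ a b → ℝ := fun α => normSq (eb hδ α * ξ).1 + normSq (eb hδ α * ξ).2
  have hex : ∃ k : ℕ, ∃ α ∈ I, ∃ α' ∈ I, (α.im * α'.re - α.re * α'.im).natAbs = absNorm I ∧
      ⌊4 * (Q α + Q α')⌋₊ = k := by
    let B := I.selfBasis (QuadraticAlgebra.basis a b) h.1
    refine ⟨_, B 1, (B 1).2, B 0, (B 0).2, ?_, rfl⟩
    rw [← natAbs_det_basis_change (QuadraticAlgebra.basis a b) I B, Module.Basis.det_apply,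
      Matrix.det_fin_two]
    simp only [Module.Basis.toMatrix_apply, basis_repr_apply, Function.comp]
    simp [mul_comm]
  obtain ⟨α, h1, α', h2, h3, h4⟩ := Nat.find_spec hex
  have hmin : ∀ β ∈ I, ∀ β' ∈ I, β.im * β'.re - β.re * β'.im = α.im * α'.re - α.re * α'.im →
      4 * (Q α + Q α') < 4 * (Q β + Q β') + 1 := fun β b1 β' b2 b3 => by
    have := h4 ▸ Nat.find_min' hex ⟨β, b1, β', b2, b3 ▸ h3, rfl⟩
    have h5 : 0 ≤ 4 * (Q β + Q β') := by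
      simp only [Q, ← Complex.sq_norm]; positivity
    exact (Nat.lt_floor_add_one _).trans_le (by
      gcongr; exact (Nat.cast_le.2 this).trans (Nat.floor_le h5))
  have m1 := hmin α h1 _ (I.add_mem h2 h1) (by simp; ring)
  have m2 := hmin α h1 _ (I.sub_mem h2 h1) (by simp; ring)
  have m3 := hmin _ (I.add_mem h1 h2) α' h2 (by simp; ring)
  have m4 := hmin _ (I.sub_mem h1 h2) α' h2 (by simp; ring)
  obtain ⟨i, γ, ν, g1, g2, g3, g4⟩ := id h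
  have det : ‖(eb hδ α * ξ).1 * (eb hδ α' * ξ).2 - (eb hδ α * ξ).2 * (eb hδ α' * ξ).1‖ = ‖δ‖ := by
    have := congrArg (‖·‖) g3
    rw [norm_mul, Complex.norm_intCast, ← Int.cast_abs, ← Nat.cast_natAbs, g4, NormOneClass.norm_one] at this
    rw [show (eb hδ α * ξ).1 * (eb hδ α' * ξ).2 - (eb hδ α * ξ).2 * (eb hδ α' * ξ).1 =
      ((eb hδ α).1 * (eb hδ α').2 - (eb hδ α).2 * (eb hδ α').1) * (ξ.1 * ξ.2) by
      simp only [Prod.fst_mul, Prod.snd_mul]; ring, eb_det, norm_mul, norm_mul, Complex.norm_intCast,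
      ← Int.cast_abs, ← Nat.cast_natAbs, h3, mul_right_comm, this, one_mul]
  have im0 : ((eb hδ α * ξ).1 * (starRingEnd ℂ) (eb hδ α' * ξ).1 +
      (eb hδ α * ξ).2 * (starRingEnd ℂ) (eb hδ α' * ξ).2).im = 0 := by
    have c : (starRingEnd ℂ) δ * (starRingEnd ℂ) δ = δ * δ := by rw [← map_mul, hδ]; simp [map_ofNat]
    rw [← conj_eq_iff_im]
    rcases mul_self_eq_mul_self_iff.1 c with c | c
    · simp [eb, ec, c, map_ofNat]; ring
    · have c1 : ∀ z, (starRingEnd ℂ) (eb hδ z).1 = (eb hδ z).2 := fun z => by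
        simp [eb, ec, c, sub_eq_add_neg, map_ofNat]
      have c2 : ∀ z, (starRingEnd ℂ) (eb hδ z).2 = (eb hδ z).1 := fun z => by rw [← c1, conj_conj]
      have a1 : ‖(eb hδ γ).1 * ξ.1 ^ 3‖ = ‖(eb hδ γ).2 * ξ.2 ^ 3‖ :=
        congrArg (‖·‖) ((congrArg Prod.fst g2).trans (congrArg Prod.snd g2).symm)
      rw [norm_mul, norm_mul, ← c1, norm_conj, norm_pow, norm_pow, mul_right_inj' (norm_ne_zero_iff.2
        (eb_ne fun h0 => pow_ne_zero 3 i (by rw [g1, h0]; simp)).1),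
        pow_left_inj₀ (norm_nonneg _) (norm_nonneg _) three_ne_zero] at a1
      have a2 : ξ.1 * (starRingEnd ℂ) ξ.1 = ξ.2 * (starRingEnd ℂ) ξ.2 := by
        rw [mul_conj', mul_conj', a1]
      simp only [Prod.fst_mul, Prod.snd_mul, map_add, map_mul, c1, c2, conj_conj]
      linear_combination ((eb hδ α).2 * (eb hδ α').1 - (eb hδ α).1 * (eb hδ α').2) * a2
  have d0 := norm_ne_zero_iff.1 (det ▸ norm_ne_zero_iff.2 δ0)
  have q1 := h.one_le δ0 (h.mem h1) fun h0 => d0 (by simp [h0])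
  have q2 := h.one_le δ0 (h.mem h2) fun h0 => d0 (by simp [h0])
  refine ⟨_, _, h.mem h1, h.mem h2, det, le_of_sq_le_sq ?_ (by positivity)⟩
  simp only [Q, map_add, map_sub, add_mul, sub_mul] at m1 m2 m3 m4
  rw [mul_pow, mul_pow, ← det, Complex.sq_norm]
  generalize eb hδ α * ξ = u at *
  generalize eb hδ α' * ξ = u' at *
  exact lagr q1 q2 im0 (by linarith only [m1]) (by linarith only [m2]) (by linarith only [m3]) (by linarith only [m4])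

lemma g3_det (h : Dt hδ I ξ) {u v : ℂ × ℂ} (hu : Mem hδ ξ u) (hv : Mem hδ ξ v) :
    ∃ β : QuadraticAlgebra ℤ a b, u.1 * v.2 = (eb hδ β).1 ∧ u.2 * v.1 = (eb hδ β).2 ∧
      det2 u v = β.im * δ := by
  obtain ⟨β, hβ⟩ := (h.red (ξ' := 1) (by convert hu.mul (h.swap hv) using 1; ring)).one
  have e1 : u.1 * v.2 = (eb hδ β).1 := congrArg Prod.fst hβ
  have e2 : u.2 * v.1 = (eb hδ β).2 := congrArg Prod.snd hβ
  exact ⟨β, e1, e2, by rw [det2, e1, e2, eb_sub]⟩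

theorem basis2 (δ0 : δ ≠ 0) (h : Dt hδ I ξ) : ∃ w w', Mem hδ ξ w ∧ Mem hδ ξ w' ∧
    det2 w w' ^ 2 = δ ^ 2 ∧ ‖w‖ ≤ ‖w'‖ ∧ ‖w‖ * ‖w'‖ ≤ 3 / 2 * ‖δ‖ := by
  obtain ⟨w, w', hw, hw', h1, h2⟩ := g3_basis δ0 h
  obtain ⟨β, -, -, e⟩ := g3_det h hw hw'
  have h3 : det2 w w' ^ 2 = δ ^ 2 := by
    have h4 : ‖det2 w w'‖ = ‖δ‖ := h1
    rw [e, norm_mul, Complex.norm_intCast] at h4
    have h5 : |(β.im : ℝ)| = 1 :=
      mul_right_cancel₀ (norm_ne_zero_iff.2 δ0) (h4.trans (one_mul _).symm)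
    have h6 : (β.im : ℝ) ^ 2 = 1 := by rw [← sq_abs, h5, one_pow]
    have h7 : β.im ^ 2 = 1 := by exact_mod_cast h6
    have h8 : (β.im : ℂ) ^ 2 = 1 := by exact_mod_cast h7
    rw [e, mul_pow, h8, one_mul]
  rcases le_total ‖w‖ ‖w'‖ with hle | hle
  · exact ⟨w, w', hw, hw', h3, hle, h2⟩
  · refine ⟨w', w, hw', hw, ?_, hle, by rwa [mul_comm]⟩
    rw [← h3, det2, det2]
    ring

theorem lat_pl (δ0 : δ ≠ 0) (h : Dt hδ I ξ) {μ : ℝ} (hμ : ∀ u, Mem hδ ξ u → u ≠ 0 → μ ≤ ‖u‖) :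
    Pl (Lat hδ ξ) δ μ := by
  refine ⟨fun u hu v hv => ?_, fun u hu v hv v0 hd => ?_, fun u hu => hμ u hu⟩
  · obtain ⟨β, -, -, e⟩ := g3_det h hu hv
    exact ⟨β.im, e⟩
  · obtain ⟨β, e1, e2, e⟩ := g3_det h hu hv
    rw [hd, eq_comm, mul_eq_zero, Int.cast_eq_zero, or_iff_left δ0] at e
    have e3 : u.1 * v.2 = (β.re : ℂ) := by rw [e1]; simp [eb, ec, e]
    have e4 : u.2 * v.1 = (β.re : ℂ) := by rw [e2]; simp [eb, ec, e]
    obtain ⟨n, n0, hn⟩ := h.norm δ0 hv v0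
    have n1 : (n : ℂ) ≠ 0 := by exact_mod_cast n0
    refine ⟨(β.re : ℝ) / n, Prod.ext ?_ ?_⟩
    · rw [Prod.smul_fst, Complex.real_smul]
      push_cast
      rw [div_mul_eq_mul_div, eq_div_iff n1, hn, ← e3]
      ring
    · rw [Prod.smul_snd, Complex.real_smul]
      push_cast
      rw [div_mul_eq_mul_div, eq_div_iff n1, hn, ← e4]
      ring

end

lemma g3_qd (n q : Fin 3 → ℤ) (m c : ℤ) (i : Fin 3) :
    Qd n m (fun i => c * q i) i = c ^ 2 * Qd n m q i := by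
  simp only [Qd]
  ring

lemma g3_kp (n q : Fin 3 → ℤ) (m c : ℤ) : Kp n m (fun i => c * q i) = c ^ 3 * Kp n m q := by
  simp only [Kp]
  ring

theorem gcd_facts {n p a T : Fin 3 → ℤ} {m D : ℤ} (D0 : Dl n m ≠ 0)
    (h1 : ∀ i, a i * Dl n m = Qd n m p i)
    (h2 : ∀ i, Dl n m ^ 2 * T i = 2 * Dl n m * p i ^ 3 + n i * Kp n m p)
    (h3 : ∀ i, T i ^ 2 - D * n i ^ 2 = 4 * a i ^ 3)
    (h6 : ∀ l : ℕ, l.Prime → ∃ i, ¬ (l : ℤ) ^ 6 ∣ D * n i ^ 2)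
    (h5 : ∀ l : ℕ, l.Prime → 5 ≤ l → ∃ i, ¬ (l : ℤ) ^ 2 ∣ D * n i ^ 2) :
    ∃ (g : ℕ) (p₀ : Fin 3 → ℤ), (∀ i, p i = g * p₀ i) ∧ Prim p₀ ∧ (g : ℤ) ∣ Dl n m ∧
      ∀ l : ℕ, l.Prime → 5 ≤ l → l ∣ g → (l : ℤ) ^ 2 ∣ Dl n m := by
  have hA : ∀ l : ℕ, l.Prime → ∀ k : ℕ, (∀ i, (l : ℤ) ^ k ∣ p i) → (l : ℤ) ^ k ∣ Dl n m := by
    intro l hl k
    have hp : Prime (l : ℤ) := Nat.prime_iff_prime_int.1 hl
    induction k with
    | zero => intro _; simp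
    | succ k ih =>
      intro hk
      obtain ⟨D', hD'⟩ := ih fun i => (pow_dvd_pow _ (Nat.le_succ k)).trans (hk i)
      by_contra hn
      have hn' : ¬ (l : ℤ) ∣ D' := fun h => hn (by
        rw [hD', pow_succ]
        exact mul_dvd_mul_left _ h)
      choose q hq using hk
      have hpq : p = fun i => (l : ℤ) ^ (k + 1) * q i := funext hq
      have L0 : (l : ℤ) ^ k ≠ 0 := pow_ne_zero _ hp.ne_zero
      obtain ⟨i, hi⟩ := h6 l hl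
      apply hi
      have e1 : a i * D' = (l : ℤ) ^ 2 * ((l : ℤ) ^ k * Qd n m q i) := by
        apply mul_left_cancel₀ L0
        have := h1 i
        rw [hpq, g3_qd, hD'] at this
        linear_combination this
      have e2 : T i * D' ^ 2 = (l : ℤ) ^ 3 * (2 * D' * ((l : ℤ) ^ k) ^ 2 * q i ^ 3 +
          n i * (l : ℤ) ^ k * Kp n m q) := by
        apply mul_left_cancel₀ (pow_ne_zero 2 L0)
        have := h2 i
        rw [hq i, hpq, g3_kp, hD'] at this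
        linear_combination this
      obtain ⟨a', ha'⟩ := hp.pow_dvd_of_dvd_mul_right 2 hn' ⟨_, e1⟩
      obtain ⟨T', hT'⟩ := hp.pow_dvd_of_dvd_mul_right 3 (fun h => hn' (hp.dvd_of_dvd_pow h)) ⟨_, e2⟩
      have e3 := h3 i
      rw [ha', hT'] at e3
      exact ⟨T' ^ 2 - 4 * a' ^ 3, by linear_combination -e3⟩
  have hg : ∀ c : ℕ, c ∣ Int.gcd (p 0) (Int.gcd (p 1) (p 2)) ↔ ∀ i, (c : ℤ) ∣ p i := by
    intro c
    rw [← Int.natCast_dvd_natCast, Int.dvd_coe_gcd_iff, Int.dvd_coe_gcd_iff, Fin.forall_fin_succ,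
      Fin.forall_fin_two]
    rfl
  set g := Int.gcd (p 0) (Int.gcd (p 1) (p 2)) with hgdef
  have hgD : (g : ℤ) ∣ Dl n m := by
    rw [Int.natCast_dvd, Nat.dvd_iff_prime_pow_dvd_dvd]
    intro l k hl hk
    have := hA l hl k fun i => by exact_mod_cast (hg _).1 hk i
    rw [← Int.natCast_dvd]
    exact_mod_cast this
  have g0 : g ≠ 0 := fun h => D0 (by simpa [h] using hgD)
  choose p₀ hp₀ using (hg g).1 dvd_rfl
  refine ⟨g, p₀, hp₀, fun l hl => ?_, hgD, fun l hl l5 hlg => ?_⟩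
  · by_contra hn
    push Not at hn
    have h7 : g * l ∣ g := (hg _).2 fun i => by
      rw [hp₀ i]
      push_cast
      exact mul_dvd_mul_left _ (hn i)
    have h8 : l ∣ 1 := Nat.dvd_of_mul_dvd_mul_left (Nat.pos_of_ne_zero g0) (by rwa [mul_one])
    exact hl.one_lt.ne' (Nat.dvd_one.1 h8)
  · have hp : Prime (l : ℤ) := Nat.prime_iff_prime_int.1 hl
    have hk := (hg l).1 hlg
    obtain ⟨D', hD'⟩ : (l : ℤ) ∣ Dl n m := (Int.natCast_dvd_natCast.2 hlg).trans hgD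
    by_contra hn
    have hn' : ¬ (l : ℤ) ∣ D' := fun h => hn (by
      rw [hD', pow_two]
      exact mul_dvd_mul_left _ h)
    choose q hq using hk
    have hpq : p = fun i => (l : ℤ) * q i := funext hq
    obtain ⟨i, hi⟩ := h5 l hl l5
    apply hi
    have e1 : a i * D' = (l : ℤ) * Qd n m q i := by
      apply mul_left_cancel₀ hp.ne_zero
      have := h1 i
      rw [hpq, g3_qd, hD'] at this
      linear_combination this
    have e2 : T i * D' ^ 2 = (l : ℤ) * (2 * D' * l * q i ^ 3 + n i * Kp n m q) := by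
      apply mul_left_cancel₀ (pow_ne_zero 2 hp.ne_zero)
      have := h2 i
      rw [hq i, hpq, g3_kp, hD'] at this
      linear_combination this
    obtain ⟨a', ha'⟩ := (hp.dvd_or_dvd ⟨_, e1⟩).resolve_right hn'
    obtain ⟨T', hT'⟩ := (hp.dvd_or_dvd ⟨_, e2⟩).resolve_right fun h => hn' (hp.dvd_of_dvd_pow h)
    have e3 := h3 i
    rw [ha', hT'] at e3
    exact ⟨T' ^ 2 - 4 * l * a' ^ 3, by linear_combination -e3⟩

end Pool.Agent.MP_d0fd9b_nt.S64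

end

section
namespace Pool.Agent.MP_d0fd9b_nt.S64

open Finset S72 H72 QuadraticAlgebra

lemma g4_pw {l : ℤ} (hl : Prime l) {a b : ℕ} {x y : ℤ} (hx : ¬ l ^ (a + 1) ∣ x)
    (hy : ¬ l ^ (b + 1) ∣ y) : ¬ l ^ (a + b + 1) ∣ x * y := by
  rw [pow_dvd_iff_le_emultiplicity, not_le] at *
  rw [emultiplicity_mul hl]
  generalize emultiplicity l x = u at *
  generalize emultiplicity l y = v at *
  lift u to ℕ using hx.ne_top
  lift v to ℕ using hy.ne_top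
  norm_cast at *
  omega

lemma g4_fd {d f : ℤ} (hs : Squarefree d) (hf : f = 1 ∨ f = 2) {l : ℕ} (hl : l.Prime) :
    ¬ (l : ℤ) ^ (3 + 1) ∣ f ^ 2 * d ∧ (l ≠ 2 → ¬ (l : ℤ) ^ (1 + 1) ∣ f ^ 2 * d) := by
  have hl' := Nat.prime_iff_prime_int.1 hl
  have l2 : (2 : ℤ) ≤ l := by exact_mod_cast hl.two_le
  have h1 : ¬ (l : ℤ) ^ (1 + 1) ∣ d := fun h => hl'.not_isUnit (hs _ (by rwa [← pow_two]))
  have f2 : ¬ (l : ℤ) ^ (1 + 1) ∣ f := fun h => by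
    have := Int.le_of_dvd (by omega) h
    rw [pow_succ, pow_one] at this
    rcases hf with rfl | rfl <;> nlinarith only [l2, this]
  refine ⟨by simpa only [Nat.reduceAdd, pow_two] using g4_pw hl' (g4_pw hl' f2 f2) h1, fun l2 => ?_⟩
  have f1 : ¬ (l : ℤ) ^ (0 + 1) ∣ f := fun h => by
    have := Int.le_of_dvd (by omega) h
    rw [zero_add, pow_one] at this
    rcases hf with rfl | rfl <;> omega
  simpa only [Nat.reduceAdd, pow_two, add_zero, zero_add] using g4_pw hl' (g4_pw hl' f1 f1) h1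

lemma g4_val {d f : ℤ} (hs : Squarefree d) (hf : f = 1 ∨ f = 2) {N : Fin 3 → ℤ} (h4 : ¬ 4 ∣ N 2)
    (h27 : ¬ 27 ∣ N 2) (h5 : ∀ l : ℕ, l.Prime → 5 ≤ l → ∃ i, ¬ (l : ℤ) ∣ N i) {l : ℕ} (hl : l.Prime) :
    (∃ i, ¬ (l : ℤ) ^ 6 ∣ f ^ 2 * d * N i ^ 2) ∧ (5 ≤ l → ∃ i, ¬ (l : ℤ) ^ 2 ∣ f ^ 2 * d * N i ^ 2) := by
  have hl' := Nat.prime_iff_prime_int.1 hl
  have a5 : 5 ≤ l → ∃ i, ¬ (l : ℤ) ^ 2 ∣ f ^ 2 * d * N i ^ 2 := fun l5 => by
    obtain ⟨i, hi⟩ := h5 l hl l5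
    rw [← pow_one (l : ℤ)] at hi
    exact ⟨i, by simpa only [pow_two, add_zero, Nat.reduceAdd] using g4_pw hl' ((g4_fd hs hf hl).2 (by omega)) (g4_pw hl' (a := 0) (b := 0) hi hi)⟩
  refine ⟨?_, a5⟩
  by_cases l5 : 5 ≤ l
  · obtain ⟨i, hi⟩ := a5 l5
    exact ⟨i, fun h => hi ((pow_dvd_pow _ (by norm_num)).trans h)⟩
  have l2 := hl.two_le
  have l4 : l ≠ 4 := by rintro rfl; norm_num at hl
  refine ⟨2, ?_⟩
  rw [pow_two (N 2)]
  obtain rfl | rfl : l = 2 ∨ l = 3 := by omega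
  · exact g4_pw hl' (g4_fd hs hf hl).1 (g4_pw hl' (a := 1) (b := 1) h4 h4)
  · exact g4_pw hl' ((g4_fd hs hf hl).2 (by omega)) (g4_pw hl' (a := 2) (b := 2) h27 h27)

lemma g4_18 {g : ℤ} {N : Fin 3 → ℤ} (hg : ∀ i, g ∣ N i) (h4 : ¬ 4 ∣ N 2) (h27 : ¬ 27 ∣ N 2)
    (h5 : ∀ l : ℕ, l.Prime → 5 ≤ l → ∃ i, ¬ (l : ℤ) ∣ N i) : g ∣ 18 := by
  refine Int.natAbs_dvd_natAbs.1 ((Nat.dvd_iff_prime_pow_dvd_dvd _ _).2 fun l k hl h => ?_)
  have h' : ∀ i j, j ≤ k → (l : ℤ) ^ j ∣ N i := fun i j hj =>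
    (pow_dvd_pow _ hj).trans ((Int.natCast_dvd.2 h |>.trans (hg i)) |> fun h => by exact_mod_cast h)
  have l2 := hl.two_le
  have l4 : l ≠ 4 := by rintro rfl; norm_num at hl
  obtain rfl | rfl | l5 : l = 2 ∨ l = 3 ∨ 5 ≤ l := by omega
  · have : k ≤ 1 := not_lt.1 fun hk => h4 (h' 2 2 hk)
    exact (pow_dvd_pow _ this).trans (by norm_num)
  · have : k ≤ 2 := not_lt.1 fun hk => h27 (h' 2 3 hk)
    exact (pow_dvd_pow _ this).trans (by norm_num)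
  · obtain ⟨i, hi⟩ := h5 l hl l5
    have : k = 0 := by_contra fun hk => hi (by simpa using h' i 1 (by omega))
    simp [this]

lemma g4_shift {a b : ℤ} {δ : ℂ} {hδ : δ * δ = b ^ 2 + 4 * a}
    [IsDedekindDomain (QuadraticAlgebra ℤ a b)] {I : Ideal (QuadraticAlgebra ℤ a b)} {ξ : ℂ × ℂ}
    {d f : ℤ} (hs : Squarefree d) (hf : f = 1 ∨ f = 2) (hD : δ * δ = f ^ 2 * d) (δ0 : δ ≠ 0)
    (h : Dt hδ I ξ) {x y : ℂ × ℂ} (hx : x.1 * x.2 ≠ 0) (hy : y.1 * y.2 ≠ 0) {G : ℕ} (hG : G ≠ 0) :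
    ∃ (w w' z : ℂ × ℂ) (N : ℤ), Mem hδ ξ w ∧ Mem hδ ξ w' ∧ Mem hδ ξ z ∧ w ≠ 0 ∧ w' ≠ 0 ∧
      ‖w‖ * ‖w'‖ ≤ 3 / 2 * ‖δ‖ ∧ ‖z‖ ≤ 21 * (216 * 10 ^ #(G.primeFactors.filter (5 ≤ ·))) * ‖w'‖ ∧
      x.1 * y.1 * z.1 - x.2 * y.2 * z.2 ≠ 0 ∧ (‖x‖ * ‖y‖ * ‖w'‖) ^ 3 ≤ 10 ^ 7 * ‖FF x y z‖ ∧
      N * δ = z.1 ^ 3 - z.2 ^ 3 ∧ ¬ 4 ∣ N ∧ ¬ 27 ∣ N ∧
      ∀ l : ℕ, l.Prime → 5 ≤ l → l ∣ G → ¬ (l : ℤ) ∣ N := by
  obtain ⟨w, w', w1, w2, w3, w5, w4⟩ := basis2 δ0 h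
  have wd : det2 w w' ≠ 0 := fun h0 => δ0 (pow_eq_zero_iff two_ne_zero |>.1 (by rw [← w3, h0]; simp))
  have wn : ‖det2 w w'‖ = ‖δ‖ :=
    (pow_left_inj₀ (norm_nonneg _) (norm_nonneg _) two_ne_zero).1 (by rw [← norm_pow, w3, norm_pow])
  have w0 : w ≠ 0 := fun h0 => wd (by simp [h0, det2])
  have w0' : w' ≠ 0 := fun h0 => wd (by simp [h0, det2])
  have cub : ∀ u v t, Mem hδ ξ u → Mem hδ ξ v → Mem hδ ξ t → ∃ N : ℤ,
      N * δ = u.1 * v.1 * t.1 - u.2 * v.2 * t.2 := fun u v t hu hv ht => by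
    obtain ⟨β, hβ⟩ := (h.red (ξ' := 1) (by convert (hu.mul hv).mul ht using 1; ring)).one
    exact ⟨β.im, by rw [← eb_sub hδ β, ← hβ]; rfl⟩
  obtain ⟨α₀, e0⟩ := cub w' w' w' w2 w2 w2
  obtain ⟨α₁, e1⟩ := cub w' w' w w2 w2 w1
  obtain ⟨α₂, e2⟩ := cub w' w w w2 w1 w1
  obtain ⟨α₃, e3⟩ := cub w w w w1 w1 w1
  have disc : α₀ ^ 2 * α₃ ^ 2 - 6 * α₀ * α₁ * α₂ * α₃ + 4 * α₀ * α₂ ^ 3 + 4 * α₁ ^ 3 * α₃ -
      3 * α₁ ^ 2 * α₂ ^ 2 = f ^ 2 * d := by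
    apply Int.cast_injective (α := ℂ)
    refine mul_right_cancel₀ (pow_ne_zero 4 δ0) ?_
    have e : ((α₀ : ℂ) * δ) ^ 2 * (α₃ * δ) ^ 2 - 6 * (α₀ * δ) * (α₁ * δ) * (α₂ * δ) * (α₃ * δ) +
        4 * (α₀ * δ) * (α₂ * δ) ^ 3 + 4 * (α₁ * δ) ^ 3 * (α₃ * δ) - 3 * (α₁ * δ) ^ 2 * (α₂ * δ) ^ 2 =
        (det2 w w' ^ 2) ^ 3 := by
      rw [e0, e1, e2, e3, det2]; ring
    rw [w3] at e
    push_cast
    linear_combination e + δ ^ 4 * hD
  have hα : ∀ l : ℕ, l.Prime → ∃ i, ¬ (l : ℤ) ∣ ![α₀, α₁, α₂, α₃] i := fun l hl => by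
    by_contra! hc
    obtain ⟨c₀, rfl⟩ : (l : ℤ) ∣ α₀ := hc 0
    obtain ⟨c₁, rfl⟩ : (l : ℤ) ∣ α₁ := hc 1
    obtain ⟨c₂, rfl⟩ : (l : ℤ) ∣ α₂ := hc 2
    obtain ⟨c₃, rfl⟩ : (l : ℤ) ∣ α₃ := hc 3
    exact (g4_fd hs hf hl).1 ⟨c₀ ^ 2 * c₃ ^ 2 - 6 * c₀ * c₁ * c₂ * c₃ + 4 * c₀ * c₂ ^ 3 +
      4 * c₁ ^ 3 * c₃ - 3 * c₁ ^ 2 * c₂ ^ 2, by rw [← disc]; ring⟩
  have n0 : 0 < ‖w‖ := norm_pos_iff.2 w0
  obtain ⟨k, k1, k2, k3⟩ : ∃ k : ℕ, 1 ≤ k ∧ ‖w'‖ ≤ k * ‖w‖ ∧ k * ‖w‖ ≤ 2 * ‖w'‖ := by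
    refine ⟨⌈‖w'‖ / ‖w‖⌉₊, Nat.ceil_pos.2 (div_pos (by linarith only [w5, n0]) n0), (div_le_iff₀ n0).1 (Nat.le_ceil _), ?_⟩
    have := (Nat.ceil_lt_add_one (show 0 ≤ ‖w'‖ / ‖w‖ by positivity)).le
    have := mul_le_mul_of_nonneg_right this n0.le
    rw [add_mul, div_mul_cancel₀ _ n0.ne'] at this
    linarith only [w5, this]
  choose j j1 j2 j3 using fun i : Fin 5 => avoid G hG _ hα
    (2 * (i : ℕ) * (216 * 10 ^ #(G.primeFactors.filter (5 ≤ ·)) * k))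
  obtain ⟨T, hT, T1⟩ : ∃ T : ℤ, T = 216 * 10 ^ #(G.primeFactors.filter (5 ≤ ·)) ∧ 1 ≤ T :=
    ⟨_, rfl, by have : (0 : ℤ) < 216 * 10 ^ #(G.primeFactors.filter (5 ≤ ·)) := by positivity
                omega⟩
  rw [show (216 * 10 ^ #(G.primeFactors.filter (5 ≤ ·)) : ℝ) = T by rw [hT]; push_cast; rfl]
  rw [← hT] at j1 j2
  have Tk : T ≤ T * k := le_mul_of_one_le_right (by omega) (by exact_mod_cast k1)
  have T1' : (1 : ℝ) ≤ T := by exact_mod_cast T1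
  have hZ : ∀ i, ‖w' + j i • w‖ ≤ 21 * T * ‖w'‖ := fun i => by
    refine (norm_add_le _ _).trans ?_
    have i4 : ((i : ℕ) : ℤ) ≤ 4 := by have := i.2; omega
    have a1 : |j i| ≤ 10 * (T * k) := abs_le.2 ⟨by nlinarith only [j1 i, T1, Tk],
      by nlinarith only [j2 i, T1, Tk, i4]⟩
    have a2 : |(j i : ℝ)| ≤ 10 * (T * k) := by exact_mod_cast a1
    rw [norm_zsmul ℝ, Real.norm_eq_abs]
    linarith only [mul_le_mul_of_nonneg_right a2 n0.le, mul_le_mul_of_nonneg_left k3 (by linarith only [T1'] : (0 : ℝ) ≤ T), mul_le_mul_of_nonneg_right T1' (norm_nonneg w')]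
  obtain ⟨i, i1, i2⟩ := full hx hy wd j (σ := T * k) (by have : (1 : ℝ) ≤ k := by exact_mod_cast k1
                                                         positivity) (fun i i' hi => by
    have : T * k ≤ |j i - j i'| := by
      rcases lt_or_gt_of_ne hi with h | h
      · have : ((i : ℕ) : ℤ) + 1 ≤ (i' : ℕ) := by exact_mod_cast h
        rw [abs_sub_comm]
        exact le_trans (by nlinarith only [j2 i, j1 i', T1, Tk, this]) (le_abs_self _)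
      · have : ((i' : ℕ) : ℤ) + 1 ≤ (i : ℕ) := by exact_mod_cast h
        exact le_trans (by nlinarith only [j2 i', j1 i, T1, Tk, this]) (le_abs_self _)
    exact_mod_cast this) hZ
  refine ⟨w, w', _, _, w1, w2, (Lat hδ _).add_mem w2 ((Lat hδ _).zsmul_mem w1 (j i)), w0, w0', w4, hZ i,
    i1, ?_, ?_, j3 i⟩
  · rw [wn] at i2
    have n1 : 0 < ‖w'‖ := by linarith only [w5, n0]
    have a1 : 2 / 3 * (T * ‖w'‖) * ‖w'‖ ≤ T * k * ‖δ‖ := by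
      have := mul_le_mul_of_nonneg_right k2 n1.le
      have := mul_le_mul_of_nonneg_left w4 (Nat.cast_nonneg (α := ℝ) k)
      nlinarith
    have a2 := (pow_le_pow_left₀ (by positivity) (mul_le_mul_of_nonneg_left a1
      (show 0 ≤ ‖x‖ * ‖y‖ by positivity)) 3).trans i2
    refine le_of_mul_le_mul_right (a := (2 / 3 * (T * ‖w'‖)) ^ 3) (le_trans (le_of_eq (by ring))
      (a2.trans ?_)) (by positivity)
    have := mul_nonneg (norm_nonneg (FF x y (w' + j i • w))) (show 0 ≤ (T * ‖w'‖) ^ 3 by positivity)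
    linarith only [this]
  · simp only [zsmul_eq_mul, Prod.fst_add, Prod.snd_add, Prod.fst_mul, Prod.snd_mul, Prod.fst_intCast,
      Prod.snd_intCast, Matrix.cons_val]
    push_cast
    linear_combination e0 + 3 * j i * e1 + 3 * j i ^ 2 * e2 + j i ^ 3 * e3

theorem core2 {a b : ℤ} {δ : ℂ} {hδ : δ * δ = b ^ 2 + 4 * a}
    [IsDedekindDomain (QuadraticAlgebra ℤ a b)] {I I' : Ideal (QuadraticAlgebra ℤ a b)} {ξ ξ' : ℂ × ℂ}
    {d f : ℤ} (hs : Squarefree d) (hf : f = 1 ∨ f = 2) (hD : b ^ 2 + 4 * a = f ^ 2 * d) {W : ℝ}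
    (hW : W ≤ ‖δ‖) (hW' : ‖δ‖ ≤ 4 * W) (h : Dt hδ I ξ) (h' : Dt hδ I' ξ')
    (c1 : ClassGroup.mk0 ⟨I, mem_nonZeroDivisors_of_ne_zero h.1⟩ ≠ 1)
    (c2 : ClassGroup.mk0 ⟨I', mem_nonZeroDivisors_of_ne_zero h'.1⟩ ≠ 1)
    (c3 : (ClassGroup.mk0 ⟨I, mem_nonZeroDivisors_of_ne_zero h.1⟩ *
      ClassGroup.mk0 ⟨I', mem_nonZeroDivisors_of_ne_zero h'.1⟩) ^ 2 ≠ 1)
    {x y : ℂ × ℂ} (hx : Mem hδ ξ x) (hy : Mem hδ ξ' y) (x0 : x ≠ 0) (y0 : y ≠ 0) (hxy : ‖x‖ ≤ ‖y‖)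
    (h3 : ∀ z, Mem hδ (ξ * ξ' * (ξ * ξ')) z → z ≠ 0 → ‖y‖ ≤ 2 * ‖z‖)
    (h4 : ∀ u, Mem hδ (ξ * ξ' * ξ') u → u ≠ 0 → ‖y‖ ≤ 2 * ‖u‖) :
    ∃ (n : Fin 3 → ℤ) (m : ℤ) (p c : Fin 3 → ℤ) (z : ℂ × ℂ) (g : ℤ) (Y : Fin 3 → ℝ), 0 < g ∧
      Tup W n m p Y ∧ Par (g * δ) ![x, y, z] n m p c := by
  have hδ' : δ * δ = f ^ 2 * d := by rw [hδ]; exact_mod_cast hD
  have δ0 : δ ≠ 0 := fun h0 => mul_ne_zero (pow_ne_zero 2 (show f ≠ 0 by omega)) hs.ne_zero (by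
    rw [h0, zero_mul] at hδ'; exact_mod_cast hδ'.symm)
  have d3 := (h.mul h').mul (h.mul h')
  obtain ⟨a₁, a1, a1'⟩ := h.norm δ0 hx x0
  obtain ⟨a₂, a2, a2'⟩ := h'.norm δ0 hy y0
  obtain ⟨β₁, b1⟩ := h.cube hx
  obtain ⟨β₂, b2⟩ := h'.cube hy
  have n0 : β₁.im ≠ 0 := fun h0 => h.ne δ0 hx x0 c1 (by
    have := eb_sub hδ β₁
    rwa [← b1, h0, Int.cast_zero, zero_mul, sub_eq_zero] at this)
  obtain ⟨w, w', z, N, w1, w2, hz, w0, w0', w4, z1, z2, z3, z4, z5, z6, z7⟩ :=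
    g4_shift hs hf hδ' δ0 d3 (x := x) (y := y) (a1' ▸ Int.cast_ne_zero.2 a1) (a2' ▸ Int.cast_ne_zero.2 a2)
      (G := Int.gcd β₁.im β₂.im) fun h0 => n0 (Int.gcd_eq_zero_iff.1 h0).1
  have z0 : z ≠ 0 := fun h0 => z2 (by simp [h0])
  obtain ⟨a₃, a3, a3'⟩ := d3.norm δ0 hz z0
  have hx' := h.swap hx
  have hy' := h'.swap hy
  have hz' := d3.swap hz
  have red : ∀ (i j : ℕ) {η u}, Mem hδ (ξ ^ (3 * i) * ξ' ^ (3 * j) * η) u → Mem hδ η u := by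
    intro i j
    induction i with
    | zero => induction j with
      | zero => intro η u hu; simpa using hu
      | succ j ih => intro η u hu; exact ih (h'.red (by convert hu using 1; ring))
    | succ i ih => intro η u hu; exact ih (h.red (by convert hu using 1; ring))
  obtain ⟨β₃, b3⟩ := d3.cube hz
  obtain rfl : N = β₃.im := Int.cast_injective (α := ℂ) (mul_right_cancel₀ δ0 (by
    rw [z4, ← eb_sub hδ β₃, ← b3]; rfl))
  obtain ⟨μ, b4⟩ := (red 1 1 (η := 1) (by convert (hx.mul hy).mul hz using 1; ring)).one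
  obtain ⟨π₁, b5⟩ := (red 2 1 (η := 1) (by convert ((hx'.mul hx').mul hy).mul hz using 1; ring)).one
  obtain ⟨π₂, b6⟩ := (red 1 2 (η := 1) (by convert ((hy'.mul hy').mul hz).mul hx using 1; ring)).one
  obtain ⟨π₃, b7⟩ := (red 3 3 (η := 1) (by convert ((hz'.mul hz').mul hx).mul hy using 1; ring)).one
  let F : Fin 7 → ℤ := ![β₁.im, β₂.im, β₃.im, μ.im, π₁.im, π₂.im, π₃.im]
  have m0 : μ.im ≠ 0 := fun h0 => by
    have := eb_sub hδ μ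
    rw [← b4, h0, Int.cast_zero, zero_mul] at this
    exact z2 this
  obtain ⟨f', f1, f2⟩ := Finset.extract_gcd F (s := Finset.univ) Finset.univ_nonempty
  have g0 : 0 < Finset.univ.gcd F := by
    refine lt_of_le_of_ne (Int.nonneg_of_normalize_eq_self Finset.normalize_gcd) fun h0 => m0 ?_
    exact (Finset.gcd_eq_zero_iff.1 h0.symm 3 (Finset.mem_univ _))
  generalize Finset.univ.gcd F = g at f1 g0
  have s0 : (g : ℂ) * δ ≠ 0 := mul_ne_zero (by exact_mod_cast g0.ne') δ0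
  have hf' : ∀ (i : Fin 7) (β : QuadraticAlgebra ℤ a b), β.im = F i →
      f' i * (g * δ) = (eb hδ β).1 - (eb hδ β).2 := fun i β e => by
    rw [eb_sub, e, f1 i (Finset.mem_univ _)]; push_cast; ring
  have par : Par (g * δ) ![x, y, z] ![f' 0, f' 1, f' 2] (f' 3) ![f' 4, f' 5, f' 6] ![a₁, a₂, a₃] := by
    refine ⟨s0, fun i => ?_, ?_, fun i => ?_, fun i => ?_⟩
    · fin_cases i
      · exact (hf' 0 β₁ rfl).trans (by rw [← b1]; rfl)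
      · exact (hf' 1 β₂ rfl).trans (by rw [← b2]; rfl)
      · exact (hf' 2 β₃ rfl).trans (by rw [← b3]; rfl)
    · exact (hf' 3 μ rfl).trans (by rw [← b4]; rfl)
    · fin_cases i
      · exact (hf' 4 π₁ rfl).trans (by rw [← b5]; simp [pow_two])
      · exact (hf' 5 π₂ rfl).trans (by rw [← b6]; simp [pow_two])
      · exact (hf' 6 π₃ rfl).trans (by rw [← b7]; simp [pow_two])
    · fin_cases i
      exacts [a1', a2', a3']
  have e0 : β₁.im = g * f' 0 := f1 0 (Finset.mem_univ _)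
  have e1 : β₂.im = g * f' 1 := f1 1 (Finset.mem_univ _)
  have e2 : β₃.im = g * f' 2 := f1 2 (Finset.mem_univ _)
  have eN : ∀ i, ![β₁.im, β₂.im, β₃.im] i = g * ![f' 0, f' 1, f' 2] i := fun i => by
    fin_cases i
    exacts [e0, e1, e2]
  have u5 : ∀ l : ℕ, l.Prime → 5 ≤ l → ∃ i, ¬ (l : ℤ) ∣ ![β₁.im, β₂.im, β₃.im] i := fun l hl l5 => by
    by_contra! hc
    exact z7 l hl l5 (Int.dvd_gcd (hc 0) (hc 1)) (hc 2)
  have g18 : g ∣ 18 := g4_18 (fun i => ⟨_, eN i⟩) z5 z6 u5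
  have eF : (Dl ![f' 0, f' 1, f' 2] (f' 3) : ℂ) * (g * δ) ^ 3 = FF x y z := by
    have q0 := par.2.1 0
    have q1 := par.2.1 1
    have q2 := par.2.1 2
    have q3 := par.2.2.1
    simp only [Matrix.cons_val] at q0 q1 q2 q3
    rw [FF, ← q0, ← q1, ← q2, ← q3, Dl]
    simp only [Matrix.cons_val]
    push_cast; ring
  have x1 := h.one_le δ0 hx x0
  have w5 := d3.one_le δ0 w2 w0'
  have D0 : Dl ![f' 0, f' 1, f' 2] (f' 3) ≠ 0 := fun h0 => by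
    rw [← eF, h0, Int.cast_zero, zero_mul, _root_.norm_zero, mul_zero] at z3
    exact z3.not_gt (by have : 1 ≤ ‖y‖ := x1.trans hxy
                        positivity)
  have tt : ∀ (i j : Fin 7) (β β' : QuadraticAlgebra ℤ a b), β.im = F i → β'.im = F j → ∃ t : ℤ,
      t * (g * δ) = (eb hδ β).1 * (eb hδ β').2 - (eb hδ β).2 * (eb hδ β').1 := fun i j β β' e e' =>
    ⟨f' i * β'.re - β.re * f' j, by
      rw [eb_det, e, e', f1 i (Finset.mem_univ _), f1 j (Finset.mem_univ _)]; push_cast; ring⟩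
  have ht : ∀ i : Fin 3, ∃ t : ℤ, t * (g * δ) = (![x, y, z] (i + 1)).1 ^ 3 * (![x, y, z] (i + 2)).2 ^ 3 -
      (![x, y, z] (i + 1)).2 ^ 3 * (![x, y, z] (i + 2)).1 ^ 3 := fun i => by
    fin_cases i
    · simpa only [Nat.succ_eq_add_one, Nat.reduceAdd, Fin.zero_eta, Fin.isValue, zero_add, Matrix.cons_val_one, Matrix.cons_val_zero, Matrix.cons_val, ← b2, Prod.pow_fst, ← b3, Prod.pow_snd] using tt 1 2 β₂ β₃ rfl rfl
    · simpa only [Nat.succ_eq_add_one, Nat.reduceAdd, Fin.mk_one, Fin.isValue, Fin.reduceAdd, Matrix.cons_val, Matrix.cons_val_zero, ← b3, Prod.pow_fst, ← b1, Prod.pow_snd] using tt 2 0 β₃ β₁ rfl rfl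
    · simpa only [Nat.succ_eq_add_one, Nat.reduceAdd, Fin.reduceFinMk, Fin.isValue, Fin.reduceAdd, Matrix.cons_val_zero, Matrix.cons_val_one, ← b1, Prod.pow_fst, ← b2, Prod.pow_snd] using tt 0 1 β₁ β₂ rfl rfl
  have hT : ∀ i : Fin 3, ∃ T : ℤ, (T : ℂ) = (![x, y, z] i).1 ^ 3 + (![x, y, z] i).2 ^ 3 := fun i => by
    have : ∀ β : QuadraticAlgebra ℤ a b, ((2 * β.re + b * β.im : ℤ) : ℂ) = (eb hδ β).1 + (eb hδ β).2 :=
      fun β => by simp only [Int.cast_add, Int.cast_mul, Int.cast_ofNat, eb, ec, RingHom.coe_mk, MonoidHom.coe_mk, OneHom.coe_mk]; ring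
    fin_cases i
    · exact ⟨_, (this β₁).trans (by rw [← b1]; rfl)⟩
    · exact ⟨_, (this β₂).trans (by rw [← b2]; rfl)⟩
    · exact ⟨_, (this β₃).trans (by rw [← b3]; rfl)⟩
  choose T hT using hT
  have eD : ∀ i, g ^ 2 * (f ^ 2 * d) * ![f' 0, f' 1, f' 2] i ^ 2 =
      f ^ 2 * d * ![β₁.im, β₂.im, β₃.im] i ^ 2 := fun i => by rw [eN]; ring
  refine ⟨_, _, _, _, z, g, ![‖x‖, ‖y‖, ‖w'‖], g0, ⟨⟨fun i h0 => ?_, fun h0 => m0 ?_, D0,
    fun l hl d1 => ?_, fun i => ⟨_, by rw [← par.qd i, mul_comm]⟩, fun i => ?_,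
    gcd_facts (D := g ^ 2 * (f ^ 2 * d)) D0 par.qd (fun i => par.tr i (hT i)) (fun i => ?_)
      (fun l hl => ?_) fun l hl => ?_⟩, x1, hxy, h3 w' w2 w0', ?_, δ, g, _, _, Lat hδ (ξ * ξ' * ξ'), par, g0,
    Int.le_of_dvd (by norm_num) g18, hW, hW', le_rfl, le_rfl, z1.trans ?_, ?_,
    lat_pl δ0 ((h.mul h').mul h') fun u u1 u0 => ?_, fun i => ?_, ?_, ?_⟩, par⟩
  · have := par.2.1 i
    rw [h0, Int.cast_zero, zero_mul, eq_comm, sub_eq_zero] at this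
    fin_cases i
    · exact h.ne δ0 hx x0 c1 this
    · exact h'.ne δ0 hy y0 c2 this
    · exact d3.ne δ0 hz z0 (by rwa [pow_two, ← map_mul, ← map_mul] at c3) this
  · exact (f1 3 (Finset.mem_univ _)).trans (by rw [h0, mul_zero])
  · by_contra! d2
    have hl' := Nat.prime_iff_prime_int.1 hl
    have d3 := par.prim D0 ht hl' d1 d2
    refine hl'.not_dvd_one (f2 ▸ Finset.dvd_gcd fun i _ => ?_)
    fin_cases i
    exacts [d2 0, d2 1, d2 2, d1, d3 0, d3 1, d3 2]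
  · obtain ⟨t, e⟩ := ht i
    exact ⟨t, par.cub i e⟩
  · apply Int.cast_injective (α := ℂ)
    have q := par.2.1 i
    push_cast
    rw [hT, par.2.2.2.2]
    linear_combination (-(![f' 0, f' 1, f' 2] i * (g * δ) + (![x, y, z] i).1 ^ 3 - (![x, y, z] i).2 ^ 3)) * q +
      g ^ 2 * ![f' 0, f' 1, f' 2] i ^ 2 * hδ'
  · simp only [eD]
    exact (g4_val hs hf z5 z6 u5 hl).1
  · simp only [eD]
    exact (g4_val hs hf z5 z6 u5 hl).2
  · change ‖y‖ * ‖w'‖ ≤ _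
    linarith only [mul_le_mul_of_nonneg_right (h3 w w1 w0) (norm_nonneg w'), hW', w4]
  · change _ ≤ 5000 * tau (Int.gcd (f' 0) (f' 1)) ^ 4 * ‖w'‖
    have G0 : Int.gcd (f' 0) (f' 1) ≠ 0 := fun h0 =>
      n0 (by rw [e0, (Int.gcd_eq_zero_iff.1 h0).1, mul_zero])
    have q1 : #((Int.gcd β₁.im β₂.im).primeFactors.filter (5 ≤ ·)) ≤
        #(Int.gcd (f' 0) (f' 1)).primeFactors := card_le_card fun l hl => by
      obtain ⟨l1, l5⟩ := mem_filter.1 hl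
      obtain ⟨l2, l3, -⟩ := Nat.mem_primeFactors.1 l1
      rw [e0, e1, Int.gcd_mul_left] at l3
      refine Nat.mem_primeFactors.2 ⟨l2, (l2.dvd_mul.1 l3).resolve_left fun l4 => ?_, G0⟩
      have l6 : l ∣ 18 := l4.trans (Int.natAbs_dvd_natAbs.2 g18)
      have := Nat.le_of_dvd (by norm_num) l6
      interval_cases l <;> simp_all (config := {decide := true})
    have q2 : (10 : ℝ) ^ #((Int.gcd β₁.im β₂.im).primeFactors.filter (5 ≤ ·)) ≤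
        tau (Int.gcd (f' 0) (f' 1)) ^ 4 :=
      calc _ ≤ (2 ^ 4 : ℝ) ^ #(Int.gcd (f' 0) (f' 1)).primeFactors :=
            (pow_le_pow_right₀ (by norm_num) q1).trans (pow_le_pow_left₀ (by norm_num) (by norm_num) _)
        _ = (2 ^ #(Int.gcd (f' 0) (f' 1)).primeFactors) ^ 4 := by rw [← pow_mul, ← pow_mul, mul_comm]
        _ ≤ _ := pow_le_pow_left₀ (by positivity) (two_pow_le_tau G0) 4
    linarith only [mul_le_mul_of_nonneg_right q2 (norm_nonneg w'), mul_nonneg (pow_nonneg (tau_nonneg (Int.gcd (f' 0) (f' 1))) 4) (norm_nonneg w')]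
  · rw [← eF, norm_mul, norm_pow, Complex.norm_intCast] at z3
    exact z3
  · change ‖y‖ / 2 ≤ _
    linarith only [h4 u u1 u0]
  · fin_cases i
    · exact red 1 1 (u := y * z.swap) (by convert hy.mul hz' using 1; ring)
    · exact red 1 0 (u := z * x.swap) (by convert hz.mul hx' using 1; ring)
    · exact red 0 0 (u := x * y.swap) (by convert hx.mul hy' using 1; ring)
  · exact red 1 0 (by convert (hx'.mul hx').mul hy' using 1 <;> [ring; simp [pow_two]])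
  · exact red 0 0 (by convert hx.mul (hy.mul hy) using 1 <;> [ring; simp [pow_two]])

end Pool.Agent.MP_d0fd9b_nt.S64

end

section
namespace Pool.Agent.MP_d0fd9b_nt.S64

open Finset S72 H72

/-- products of powers of two elements -/
def g5_Sp {G : Type} [CommGroup G] (a b c : G) : Prop := ∃ i j : ℕ, c = a ^ i * b ^ j

lemma g5_trans {G : Type} [CommGroup G] {a b a' b' c : G} (ha : g5_Sp a' b' a) (hb : g5_Sp a' b' b)
    (h : g5_Sp a b c) : g5_Sp a' b' c := by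
  obtain ⟨i, j, rfl⟩ := h
  obtain ⟨i1, j1, rfl⟩ := ha
  obtain ⟨i2, j2, rfl⟩ := hb
  refine ⟨i1 * i + i2 * j, j1 * i + j2 * j, ?_⟩
  rw [mul_pow, mul_pow, pow_add, pow_add, pow_mul, pow_mul, pow_mul, pow_mul, mul_mul_mul_comm]

lemma g5_l {G : Type} [CommGroup G] (a b : G) : g5_Sp a b a := ⟨1, 0, by simp⟩

lemma g5_r {G : Type} [CommGroup G] (a b : G) : g5_Sp a b b := ⟨0, 1, by simp⟩

lemma g5_3 {G : Type} [CommGroup G] {a b : G} (ha : a ^ 3 = 1) (hb : b ^ 3 = 1) :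
    g5_Sp a (a * b * (a * b)) b := ⟨2, 2, by
  have : a ^ 2 * (a * b * (a * b)) ^ 2 = (a ^ 3) ^ 2 * b ^ 3 * b := by
    simp only [pow_succ, pow_zero, one_mul, mul_assoc, mul_comm, mul_left_comm]
  rw [this, ha, hb, one_pow, one_mul, one_mul]⟩

lemma g5_4 {G : Type} [CommGroup G] {a b : G} (ha : a ^ 3 = 1) (hb : b ^ 3 = 1) :
    g5_Sp a (a * b * b) b := ⟨1, 2, by
  have : a ^ 1 * (a * b * b) ^ 2 = a ^ 3 * b ^ 3 * b := by
    simp only [pow_succ, pow_zero, one_mul, mul_assoc, mul_comm, mul_left_comm]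
  rw [this, ha, hb, one_mul, one_mul]⟩

lemma g5_ind {G : Type} [CommGroup G] {a b c₁ c₂ : G} (ha : a ^ 3 = 1) (hb : b ^ 3 = 1)
    (h₁ : g5_Sp a b c₁) (h₂ : g5_Sp a b c₂)
    (hi : ∀ e : G, e ^ 3 = 1 → ∀ i j : ℕ, c₁ = e ^ i → c₂ ≠ e ^ j) : a ≠ 1 ∧ b ≠ 1 ∧ (a * b) ^ 2 ≠ 1 := by
  obtain ⟨i, j, rfl⟩ := h₁
  obtain ⟨k, l, rfl⟩ := h₂
  refine ⟨fun h => hi b hb j l (by simp [h]) (by simp [h]), fun h => hi a ha i k (by simp [h]) (by simp [h]),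
    fun h => ?_⟩
  have h1 : a * b = 1 := by
    have : (a * b) ^ 3 = 1 := by rw [mul_pow, ha, hb, one_mul]
    rwa [pow_succ, h, one_mul] at this
  have h2 : b = a ^ 2 := by
    calc b = a ^ 3 * b := by rw [ha, one_mul]
      _ = a ^ 2 * (a * b) := by rw [pow_succ, mul_assoc]
      _ = a ^ 2 := by rw [h1, mul_one]
  exact hi a ha (i + 2 * j) (k + 2 * l) (by rw [h2, pow_add, pow_mul]) (by rw [h2, pow_add, pow_mul])

lemma g5_cube {a b : ℤ} {δ : ℂ} {hδ : δ * δ = b ^ 2 + 4 * a}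
    [IsDedekindDomain (QuadraticAlgebra ℤ a b)] {I : Ideal (QuadraticAlgebra ℤ a b)} {ξ : ℂ × ℂ}
    (h : Dt hδ I ξ) : ClassGroup.mk0 ⟨I, mem_nonZeroDivisors_of_ne_zero h.1⟩ ^ 3 = 1 := by
  obtain ⟨γ, ν, h1, -⟩ := h.2
  rw [← map_pow, SubmonoidClass.mk_pow, ClassGroup.mk0_eq_one_iff, h1]
  exact ⟨γ, rfl⟩

lemma g5_mul {a b : ℤ} {δ : ℂ} {hδ : δ * δ = b ^ 2 + 4 * a}
    [IsDedekindDomain (QuadraticAlgebra ℤ a b)] {I I' : Ideal (QuadraticAlgebra ℤ a b)} {ξ ξ' : ℂ × ℂ}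
    (h : Dt hδ I ξ) (h' : Dt hδ I' ξ') :
    ClassGroup.mk0 ⟨I * I', mem_nonZeroDivisors_of_ne_zero (h.mul h').1⟩ =
      ClassGroup.mk0 ⟨I, mem_nonZeroDivisors_of_ne_zero h.1⟩ *
      ClassGroup.mk0 ⟨I', mem_nonZeroDivisors_of_ne_zero h'.1⟩ := by
  rw [← map_mul]; rfl

open Classical in
theorem tuples2 {d : ℤ} (hs : Squarefree d) (h1 : d ≠ 1) {W : ℝ} (hW0 : 0 < W)
    (hW : W ^ 2 ≤ |(d : ℝ)|) (hW' : |(d : ℝ)| ≤ 4 * W ^ 2) :
    ∃ S : Finset (((Fin 3 → ℤ) × ℤ) × (Fin 3 → ℤ)), torsion 3 d ^ 2 ≤ 162 * #S + 81 ∧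
      ∀ k ∈ S, (∃ Y, Tup W k.1.1 k.1.2 k.2 Y) ∧ ∃ (s : ℂ) (X : Fin 3 → ℂ × ℂ) (a : Fin 3 → ℤ) (u : ℤ),
        u ≠ 0 ∧ s * s = u ^ 2 * d ∧ Par s X k.1.1 k.1.2 k.2 a := by
  obtain ⟨a, b, f, _, _, -, hf, hD, he⟩ := torsion_eq hs h1 3
  obtain ⟨δ, hδ⟩ := IsAlgClosed.exists_eq_mul_self ((b : ℂ) ^ 2 + 4 * a)
  replace hδ := hδ.symm
  have hδ' : δ * δ = f ^ 2 * d := by rw [hδ]; exact_mod_cast hD
  have δ2 : ‖δ‖ ^ 2 = f ^ 2 * |(d : ℝ)| := by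
    rw [pow_two, ← norm_mul, hδ', norm_mul, norm_pow, Complex.norm_intCast, Complex.norm_intCast, sq_abs]
  have f1 : (1 : ℝ) ≤ f ^ 2 ∧ (f : ℝ) ^ 2 ≤ 4 := by rcases hf with rfl | rfl <;> norm_num
  have δ1 : W ≤ ‖δ‖ := le_of_sq_le_sq (by nlinarith only [hW, δ2, f1]) (norm_nonneg _)
  have δ0 : δ ≠ 0 := norm_pos_iff.1 (by linarith only [hW0, δ1])
  have δW : ‖δ‖ ≤ 4 * W := le_of_sq_le_sq (by nlinarith only [hW', δ2, f1]) (by positivity)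
  let _ := Fintype.ofFinite (ClassGroup (QuadraticAlgebra ℤ a b))
  let G := univ.filter fun c : ClassGroup (QuadraticAlgebra ℤ a b) => c ^ 3 = 1
  have hG : torsion 3 d = #G := by rw [he, Nat.card_eq_fintype_card, Fintype.card_subtype]
  let Key : ClassGroup (QuadraticAlgebra ℤ a b) × ClassGroup (QuadraticAlgebra ℤ a b) →
      ((Fin 3 → ℤ) × ℤ) × (Fin 3 → ℤ) → Prop := fun c k => (∃ Y, Tup W k.1.1 k.1.2 k.2 Y) ∧
    ∃ (I I' : Ideal (QuadraticAlgebra ℤ a b)) (ξ ξ' : ℂ × ℂ) (h : Dt hδ I ξ) (h' : Dt hδ I' ξ')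
      (x y z : ℂ × ℂ) (e : Fin 3 → ℤ) (g : ℤ),
      ClassGroup.mk0 ⟨I, mem_nonZeroDivisors_of_ne_zero h.1⟩ = c.1 ∧
      ClassGroup.mk0 ⟨I', mem_nonZeroDivisors_of_ne_zero h'.1⟩ = c.2 ∧ Mem hδ ξ x ∧ Mem hδ ξ' y ∧ x ≠ 0 ∧
      y ≠ 0 ∧ 0 < g ∧ Par (g * δ) ![x, y, z] k.1.1 k.1.2 k.2 e
  have dt : ∀ c ∈ G, ∃ (I : Ideal (QuadraticAlgebra ℤ a b)) (ξ : ℂ × ℂ) (h : Dt hδ I ξ),
      ClassGroup.mk0 ⟨I, mem_nonZeroDivisors_of_ne_zero h.1⟩ = c := fun c hc => by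
    obtain ⟨⟨I, hI⟩, rfl⟩ := ClassGroup.mk0_surjective c
    have := (mem_filter.1 hc).2
    rw [← map_pow, SubmonoidClass.mk_pow, ClassGroup.mk0_eq_one_iff] at this
    obtain ⟨ξ, hξ⟩ := exists_dt (hδ := hδ) (nonZeroDivisors.ne_zero hI) this.span_singleton_generator.symm
    exact ⟨I, ξ, hξ, rfl⟩
  have ne : ∀ {I ξ}, Dt hδ I ξ → ∃ u, Mem hδ ξ u ∧ u ≠ 0 := fun h => by
    obtain ⟨w, w', w1, -, w3, -⟩ := h.basis δ0
    exact ⟨w, w1, fun h0 => w3 (by simp [h0])⟩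
  have main : ∀ c₁ ∈ G, ∀ c₂ ∈ G, (∀ e, e ^ 3 = 1 → ∀ i j : ℕ, c₁ = e ^ i → c₂ ≠ e ^ j) →
      ∃ u v, u ^ 3 = 1 ∧ v ^ 3 = 1 ∧ (∃ k, Key (u, v) k) ∧ g5_Sp u v c₁ ∧ g5_Sp u v c₂ :=
      fun c₁ g1 c₂ g2 hi => by
    let T : Set ℝ := {r | ∃ (I I' : Ideal (QuadraticAlgebra ℤ a b)) (ξ ξ' : ℂ × ℂ) (h : Dt hδ I ξ)
      (h' : Dt hδ I' ξ') (x y : ℂ × ℂ), Mem hδ ξ x ∧ Mem hδ ξ' y ∧ x ≠ 0 ∧ y ≠ 0 ∧
      (∀ c, c = c₁ ∨ c = c₂ → g5_Sp (ClassGroup.mk0 ⟨I, mem_nonZeroDivisors_of_ne_zero h.1⟩)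
        (ClassGroup.mk0 ⟨I', mem_nonZeroDivisors_of_ne_zero h'.1⟩) c) ∧ r = ‖x‖ + ‖y‖}
    have tn : T.Nonempty := by
      obtain ⟨I, ξ, h, e1⟩ := dt c₁ g1
      obtain ⟨I', ξ', h', e2⟩ := dt c₂ g2
      obtain ⟨x, x1, x0⟩ := ne h
      obtain ⟨y, y1, y0⟩ := ne h'
      refine ⟨_, I, I', ξ, ξ', h, h', x, y, x1, y1, x0, y0, fun c hc => ?_, rfl⟩
      rw [e1, e2]
      rcases hc with rfl | rfl
      exacts [g5_l _ _, g5_r _ _]
    have tb : BddBelow T := ⟨0, by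
      rintro _ ⟨I, I', ξ, ξ', h, h', x, y, -, -, -, -, -, rfl⟩
      positivity⟩
    obtain ⟨_, ⟨I, I', ξ, ξ', h, h', x, y, x1, y1, x0, y0, sp, rfl⟩, hr⟩ :=
      exists_lt_of_csInf_lt tn (lt_add_one (sInf T))
    wlog hxy : ‖x‖ ≤ ‖y‖ generalizing I I' ξ ξ' x y
    · exact this I' I ξ' ξ h' h y x y1 x1 y0 x0
        (fun c hc => g5_trans (g5_r _ _) (g5_l _ _) (sp c hc)) (by linarith only [hr]) (not_le.1 hxy).le
    have a3 := g5_cube h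
    have b3 := g5_cube h'
    obtain ⟨n1, n2, n3⟩ := g5_ind a3 b3 (sp _ (Or.inl rfl)) (sp _ (Or.inr rfl)) hi
    have cmp : ∀ {J : Ideal (QuadraticAlgebra ℤ a b)} {η : ℂ × ℂ} (hJ : Dt hδ J η),
        g5_Sp (ClassGroup.mk0 ⟨I, mem_nonZeroDivisors_of_ne_zero h.1⟩)
          (ClassGroup.mk0 ⟨J, mem_nonZeroDivisors_of_ne_zero hJ.1⟩)
          (ClassGroup.mk0 ⟨I', mem_nonZeroDivisors_of_ne_zero h'.1⟩) →
        ∀ z, Mem hδ η z → z ≠ 0 → ‖y‖ ≤ 2 * ‖z‖ := fun hJ hs z z1 z0 => by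
      have t1 := csInf_le tb ⟨I, _, ξ, _, h, hJ, x, z, x1, z1, x0, z0,
        fun c hc => g5_trans (g5_l _ _) hs (sp c hc), rfl⟩
      have t2 := hJ.one_le δ0 z1 z0
      linarith only [hr, t1, t2]
    obtain ⟨n, m, p, e, z, g, Y, g0, tp, par⟩ := core2 hs hf hD δ1 δW h h' n1 n2 n3 x1 y1 x0 y0 hxy
      (cmp ((h.mul h').mul (h.mul h')) (by
        rw [g5_mul (h.mul h') (h.mul h'), g5_mul h h']; exact g5_3 a3 b3))
      (cmp ((h.mul h').mul h') (by rw [g5_mul (h.mul h') h', g5_mul h h']; exact g5_4 a3 b3))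
    exact ⟨_, _, a3, b3, ⟨((n, m), p), ⟨Y, tp⟩, I, I', ξ, ξ', h, h', x, y, z, e, g, rfl, rfl, x1, y1, x0, y0,
      g0, par⟩, sp _ (Or.inl rfl), sp _ (Or.inr rfl)⟩
  let A := (G ×ˢ G).filter fun c => ∃ k, Key c k
  choose! key hkey using fun c (hc : c ∈ A) => (mem_filter.1 hc).2
  have inj : ∀ c ∈ A, ∀ c' ∈ A, key c = key c' → c = c' := fun c hc c' hc' e => by
    obtain ⟨⟨Y, gd⟩, I₁, I₂, ξ₁, ξ₂, h₁, h₂, x, y, z, e₁, g, a1, a2, a3, a4, a5, a6, a7, par⟩ := hkey c hc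
    obtain ⟨-, I₁', I₂', ξ₁', ξ₂', h₁', h₂', x', y', z', e₁', g', b1, b2, b3, b4, b5, b6, b7, par'⟩ :=
      hkey c' hc'
    rw [← e] at par'
    obtain ⟨s1, s2⟩ := par.scale par' gd.1.2.2.1 (gd.1.1 0) (P := 1) (P' := 1) one_ne_zero fun _ => rfl
    have s3 : g' = g := by
      refine (pow_left_inj₀ b7.le a7.le two_ne_zero).1 (Int.cast_injective (α := ℂ) ?_)
      push_cast at s1 ⊢
      exact mul_right_cancel₀ (mul_ne_zero δ0 δ0) (by linear_combination s1)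
    subst s3
    have s5 : ∀ i, ((1 : ℤ) : ℂ × ℂ) ^ 3 * ![x', y', z'] i ^ 3 = (1 : ℤ) ^ 3 * ![x, y, z] i ^ 3 := fun i => by
      have t1 := s2 i
      have t2 := par.2.1 i
      have t3 := par'.2.1 i
      push_cast at t1
      ext <;> simp only [Prod.fst_mul, Prod.snd_mul, Prod.pow_fst, Prod.pow_snd, Int.cast_one,
        Prod.fst_one, Prod.snd_one]
      · linear_combination t1 / 2 - t3 / 2 + t2 / 2
      · linear_combination t1 / 2 + t3 / 2 - t2 / 2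
    exact Prod.ext (a1 ▸ b1 ▸ h₁.cls h₁' a3 b3 a5 b5 one_ne_zero one_ne_zero (s5 0))
      (a2 ▸ b2 ▸ h₂.cls h₂' a4 b4 a6 b6 one_ne_zero one_ne_zero (s5 1))
  refine ⟨A.image key, ?_, fun k hk => ?_⟩
  · rw [card_image_of_injOn fun c hc c' hc' e => inj c hc c' hc' e, hG]
    have sub : G ×ˢ G ⊆ ((G ×ˢ (range 3 ×ˢ range 3)).image fun c => (c.1 ^ c.2.1, c.1 ^ c.2.2)) ∪
        (A ×ˢ ((range 3 ×ˢ range 3) ×ˢ (range 3 ×ˢ range 3))).image fun c =>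
          (c.1.1 ^ c.2.1.1 * c.1.2 ^ c.2.1.2, c.1.1 ^ c.2.2.1 * c.1.2 ^ c.2.2.2) := by
      rintro ⟨c₁, c₂⟩ hc
      obtain ⟨g1, g2⟩ := mem_product.1 hc
      have r3 : ∀ i : ℕ, i % 3 ∈ range 3 := fun i => mem_range.2 (Nat.mod_lt _ three_pos)
      have mG : ∀ e, e ^ 3 = 1 → e ∈ G := fun e he => mem_filter.2 ⟨mem_univ _, he⟩
      rw [mem_union, mem_image, mem_image]
      by_cases hi : ∀ e, e ^ 3 = 1 → ∀ i j : ℕ, c₁ = e ^ i → c₂ ≠ e ^ j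
      · obtain ⟨u, v, u3, v3, hk, ⟨i, j, e1⟩, k, l, e2⟩ := main c₁ g1 c₂ g2 hi
        refine Or.inr ⟨((u, v), (i % 3, j % 3), (k % 3, l % 3)), mem_product.2 ⟨mem_filter.2
          ⟨mem_product.2 ⟨mG u u3, mG v v3⟩, hk⟩, mem_product.2 ⟨mem_product.2 ⟨r3 _, r3 _⟩,
          mem_product.2 ⟨r3 _, r3 _⟩⟩⟩, ?_⟩
        dsimp only
        rw [← pow_eq_pow_mod i u3, ← pow_eq_pow_mod j v3, ← pow_eq_pow_mod k u3, ← pow_eq_pow_mod l v3,
          ← e1, ← e2]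
      · push Not at hi
        obtain ⟨e, e3, i, j, e1, e2⟩ := hi
        refine Or.inl ⟨(e, i % 3, j % 3), mem_product.2 ⟨mG e e3, mem_product.2 ⟨r3 _, r3 _⟩⟩, ?_⟩
        dsimp only
        rw [← pow_eq_pow_mod i e3, ← pow_eq_pow_mod j e3, ← e1, ← e2]
    have c1 := (card_le_card sub).trans ((card_union_le _ _).trans (add_le_add card_image_le card_image_le))
    simp only [card_product, card_range] at c1
    linarith only [sq_nonneg ((#G : ℤ) - 9), c1]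
  · obtain ⟨c, hc, rfl⟩ := mem_image.1 hk
    obtain ⟨gd, -, -, -, -, -, -, x, y, z, e, g, -, -, -, -, -, -, g0, par⟩ := hkey c hc
    refine ⟨gd, _, _, e, g * f, mul_ne_zero g0.ne' (by omega), ?_, par⟩
    push_cast
    linear_combination g ^ 2 * hδ'

end Pool.Agent.MP_d0fd9b_nt.S64

end
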