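import Pool.Agent.MP_d0fd9b_nt.S72.Arith
import Pool.Agent.MP_d0fd9b_nt.S72.T1
import Pool.Agent.MP_d0fd9b_nt.S72.T2
import Pool.Agent.MP_d0fd9b_nt.S72.T3
import Pool.Agent.MP_d0fd9b_nt.S72.T10
import Pool.Agent.MP_d0fd9b_nt.Sieve
import Pool.Agent.MP_48b1c3_nt.H54.Mertens

/-! Auxiliary definitions for the sharp second moment of the 3-torsion. -/

set_option autoImplicit false

namespace Pool.Agent.MP_d0fd9b_nt.S64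

open Finset S72

/-- the number of divisors -/
noncomputable def tau (n : ℕ) : ℝ := #n.divisors

/-- the sieve correction factor -/
noncomputable def al (n : ℕ) : ℝ := ∏ l ∈ n.primeFactors, (1 + 1 / (l : ℝ))

/-- the number of roots of `u t ^ 3 = v` modulo `c` -/
def Rt (c : ℕ) (u v : ℤ) : ℕ := #((range c).filter fun t : ℕ => (c : ℤ) ∣ u * t ^ 3 - v)

/-- the three cubic forms -/
def Cub (n p : Fin 3 → ℤ) (i : Fin 3) : ℤ := n (i + 1) * p (i + 2) ^ 3 - n (i + 2) * p (i + 1) ^ 3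

/-- determinant of two vectors -/
def det2 (u v : ℂ × ℂ) : ℂ := u.1 * v.2 - u.2 * v.1

/-- the modulus as a form in three vectors -/
def FF (x y z : ℂ × ℂ) : ℂ := (x.1 * y.1 * z.1 - x.2 * y.2 * z.2) ^ 3 -
  (x.1 ^ 3 - x.2 ^ 3) * (y.1 ^ 3 - y.2 ^ 3) * (z.1 ^ 3 - z.2 ^ 3)

/-- primitive vectors -/
def Prim (p : Fin 3 → ℤ) : Prop := ∀ l : ℕ, l.Prime → ∃ i, ¬ (l : ℤ) ∣ p i

/-- squarefull away from `2` and `3` -/
def SF (q : ℕ) : Prop := ∀ l : ℕ, l.Prime → 5 ≤ l → l ∣ q → l ^ 2 ∣ q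

/-- admissible factorisations of the modulus -/
def Adm (n : Fin 3 → ℤ) (m : ℤ) (c q B : ℕ) : Prop :=
  (Dl n m).natAbs = c * q * B ∧ Squarefree c ∧
  (∀ l : ℕ, l.Prime → l ∣ c → 5 ≤ l ∧ ¬ l ∣ q * B ∧ ¬ (l : ℤ) ∣ m) ∧ IsCoprime (q : ℤ) m ∧
  ∀ l : ℕ, l.Prime → l ∣ B → (l : ℤ) ∣ m

/-- the cost of a factorisation -/
noncomputable def cost (a : ℕ) (n : Fin 3 → ℤ) (c q B : ℕ) : ℝ :=
  (tau (Int.gcd (n 0) (n 1)) * tau q * tau B) ^ a * Rt c (n 0) (n 1) * (B : ℝ) ^ (5 / 6 : ℝ)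

/-- a plane lattice with determinants in `ℤ δ` and minimum at least `μ` -/
def Pl (L : AddSubgroup (ℂ × ℂ)) (δ : ℂ) (μ : ℝ) : Prop :=
  (∀ u ∈ L, ∀ v ∈ L, ∃ N : ℤ, det2 u v = N * δ) ∧
  (∀ u ∈ L, ∀ v ∈ L, v ≠ 0 → det2 u v = 0 → ∃ r : ℝ, u = r • v) ∧ ∀ u ∈ L, u ≠ 0 → μ ≤ ‖u‖

/-- the arithmetic conditions on a tuple -/
def Ari (n : Fin 3 → ℤ) (m : ℤ) (p : Fin 3 → ℤ) : Prop :=
  (∀ i, n i ≠ 0) ∧ m ≠ 0 ∧ Dl n m ≠ 0 ∧ (∀ l : ℕ, l.Prime → (l : ℤ) ∣ m → ∃ i, ¬ (l : ℤ) ∣ n i) ∧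
  (∀ i, Dl n m ∣ Qd n m p i) ∧ (∀ i, Dl n m ∣ Cub n p i) ∧
  ∃ (g : ℕ) (p₀ : Fin 3 → ℤ), (∀ i, p i = g * p₀ i) ∧ Prim p₀ ∧ (g : ℤ) ∣ Dl n m ∧
    ∀ l : ℕ, l.Prime → 5 ≤ l → l ∣ g → (l : ℤ) ^ 2 ∣ Dl n m

/-- the lattice data of a tuple in a box -/
def Dat2 (n : Fin 3 → ℤ) (m : ℤ) (p : Fin 3 → ℤ) (b : Fin 3 → ℝ) (ρ κ μ W : ℝ) : Prop :=
  (∀ i, |(p i : ℝ)| ≤ b i) ∧ (∃ i, p i ≠ 0 ∧ b i ≤ κ * |(p i : ℝ)|) ∧
  ∃ (L : AddSubgroup (ℂ × ℂ)) (δ : ℂ) (g₀ : ℤ) (v : Fin 3 → ℂ × ℂ), Pl L δ μ ∧ W ≤ ‖δ‖ ∧ g₀ ≠ 0 ∧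
    (∀ i, v i ∈ L) ∧ ∑ i, b i * ‖v i‖ ≤ ρ ∧
    (∀ i, det2 (v (i + 1)) (v (i + 2)) = p i * (g₀ * δ)) ∧ ∑ i, p i • v i = 0 ∧
    (∃ α ∈ L, ∑ i, E1 n m p i • v i = Dl n m • α) ∧ ∃ α ∈ L, ∑ i, E2 n m p i • v i = Dl n m • α

/-- the conditions satisfied by the tuple attached to two independent classes of order 3 -/
def Tup (W : ℝ) (n : Fin 3 → ℤ) (m : ℤ) (p : Fin 3 → ℤ) (Y : Fin 3 → ℝ) : Prop :=
  Ari n m p ∧ 1 ≤ Y 0 ∧ Y 0 ≤ Y 1 ∧ Y 1 ≤ 2 * Y 2 ∧ Y 1 * Y 2 ≤ 12 * W ∧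
  ∃ (δ : ℂ) (g₀ : ℤ) (X : Fin 3 → ℂ × ℂ) (a : Fin 3 → ℤ) (L : AddSubgroup (ℂ × ℂ)),
    Par (g₀ * δ) X n m p a ∧ 0 < g₀ ∧ g₀ ≤ 18 ∧ W ≤ ‖δ‖ ∧ ‖δ‖ ≤ 4 * W ∧ ‖X 0‖ ≤ Y 0 ∧ ‖X 1‖ ≤ Y 1 ∧
    ‖X 2‖ ≤ 5000 * tau (Int.gcd (n 0) (n 1)) ^ 4 * Y 2 ∧
    (Y 0 * Y 1 * Y 2) ^ 3 ≤ 10 ^ 7 * (|(Dl n m : ℝ)| * ‖(g₀ : ℂ) * δ‖ ^ 3) ∧ Pl L δ (Y 1 / 2) ∧
    (∀ i, X (i + 1) * (X (i + 2)).swap ∈ L) ∧ (X 0).swap ^ 2 * (X 1).swap ∈ L ∧ X 0 * X 1 ^ 2 ∈ L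

lemma coprime_of {a b : ℤ} (h : ∀ l : ℕ, l.Prime → (l : ℤ) ∣ a → ¬ (l : ℤ) ∣ b) : IsCoprime a b := by
  rw [Int.isCoprime_iff_gcd_eq_one, Int.gcd_eq_natAbs]
  by_contra h1
  obtain ⟨l, hl, h2, h3⟩ := Nat.Prime.not_coprime_iff_dvd.1 h1
  exact h l hl (Int.natCast_dvd.2 h2) (Int.natCast_dvd.2 h3)

lemma sqf_eq {d d' u v : ℤ} (hd : Squarefree d) (hd' : Squarefree d') (hu : u ≠ 0)
    (h : u ^ 2 * d = v ^ 2 * d') : d = d' := by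
  have hv : v ≠ 0 := by
    rintro rfl
    exact mul_ne_zero (pow_ne_zero 2 hu) hd.ne_zero (by simpa using h)
  obtain ⟨g, u', v', g0, hc, rfl, rfl⟩ := Int.exists_gcd_one' (Int.gcd_pos_of_ne_zero_left v hu)
  have h2 : u' ^ 2 * d = v' ^ 2 * d' :=
    mul_left_cancel₀ (pow_ne_zero 2 (show (g : ℤ) ≠ 0 by omega)) (by linear_combination h)
  have c := Int.isCoprime_iff_gcd_eq_one.2 hc
  have a1 : IsUnit u' := hd' u' (by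
    rw [← pow_two]
    exact (c.pow (m := 2) (n := 2)).dvd_of_dvd_mul_left ⟨d, h2.symm⟩)
  have a2 : IsUnit v' := hd v' (by
    rw [← pow_two]
    exact (c.symm.pow (m := 2) (n := 2)).dvd_of_dvd_mul_left ⟨d', h2⟩)
  rcases Int.isUnit_iff.1 a1 with rfl | rfl <;> rcases Int.isUnit_iff.1 a2 with rfl | rfl <;> simpa using h2

lemma tau_nonneg (n : ℕ) : 0 ≤ tau n := Nat.cast_nonneg _

lemma one_le_tau {n : ℕ} (h : n ≠ 0) : 1 ≤ tau n := by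
  unfold tau
  exact_mod_cast card_pos.2 ⟨1, Nat.one_mem_divisors.2 h⟩

lemma tau_mono {a b : ℕ} (hb : b ≠ 0) (h : a ∣ b) : tau a ≤ tau b :=
  Nat.cast_le.2 (card_le_card (Nat.divisors_subset_of_dvd hb h))

lemma tau_mul_le (a b : ℕ) : tau (a * b) ≤ tau a * tau b := by
  unfold tau
  rw [Nat.divisors_mul]
  exact_mod_cast card_mul_le

lemma two_pow_le_tau {n : ℕ} (h : n ≠ 0) : (2 : ℝ) ^ #n.primeFactors ≤ tau n := by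
  unfold tau
  rw [Nat.card_divisors h]
  exact_mod_cast pow_card_le_prod _ _ _ fun p hp => Nat.succ_le_succ
    ((Nat.prime_of_mem_primeFactors hp).factorization_pos_of_dvd h (Nat.dvd_of_mem_primeFactors hp))

lemma one_le_al (n : ℕ) : 1 ≤ al n :=
  (prod_const_one (s := n.primeFactors)).symm.trans_le
    (prod_le_prod (fun _ _ => zero_le_one) fun _ _ => le_add_of_nonneg_right (by positivity))

lemma al_le_tau {n : ℕ} (h : n ≠ 0) : al n ≤ tau n := by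
  refine le_trans ?_ (two_pow_le_tau h)
  rw [← prod_const]
  refine prod_le_prod (fun _ _ => by positivity) fun p hp => ?_
  have : (1 : ℝ) ≤ p := by exact_mod_cast (Nat.prime_of_mem_primeFactors hp).one_le
  have := (div_le_one (by linarith : (0 : ℝ) < p)).2 this
  linarith

lemma al_mul_le (a b : ℕ) : al (a * b) ≤ al a * al b := by
  rcases eq_or_ne a 0 with rfl | ha
  · simpa [al] using one_le_al b
  rcases eq_or_ne b 0 with rfl | hb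
  · simpa [al] using one_le_al a
  unfold al
  rw [Nat.primeFactors_mul ha hb, ← prod_union_inter]
  refine le_mul_of_one_le_right (prod_nonneg fun _ _ => by positivity) ?_
  exact (prod_const_one (s := a.primeFactors ∩ b.primeFactors)).symm.trans_le
    (prod_le_prod (fun _ _ => zero_le_one) fun _ _ => le_add_of_nonneg_right (by positivity))

lemma cov_comap {α β : Type} {P : β → Prop} {R : β → β → Prop} {c : ℕ} (h : Cov P R c) (f : α → β)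
    {P' : α → Prop} (hP : ∀ x, P' x → P (f x)) (hf : ∀ x y, P' x → P' y → f x = f y → x = y) :
    Cov P' (fun x y => R (f x) (f y)) c := fun S hS K hK => by
  classical
  rw [← card_image_of_injOn (f := f) fun x hx y hy e => hf x y (hS x hx) (hS y hy) e]
  refine h _ (fun y hy => ?_) K fun T hT hR => ?_
  · obtain ⟨x, hx, rfl⟩ := mem_image.1 hy
    exact hP x (hS x hx)
  · refine le_trans ?_ (hK (S.filter fun x => f x ∈ T) (filter_subset _ _) fun x hx y hy =>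
      hR _ (mem_filter.1 hx).2 _ (mem_filter.1 hy).2)
    refine le_trans (card_le_card fun y hy => ?_) (card_image_le (f := f))
    obtain ⟨x, hx, rfl⟩ := mem_image.1 (hT hy)
    exact mem_image.2 ⟨x, mem_filter.2 ⟨hx, hy⟩, rfl⟩

end Pool.Agent.MP_d0fd9b_nt.S64
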